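import Pool.Agent.Lib_helper72.KY.Pk

/-!
# A point of order twelve: coded systems
-/

set_option autoImplicit false
set_option linter.unusedSectionVars false
set_option linter.unusedSimpArgs false
set_option linter.unusedVariables false

namespace Pool.Agent.KY

open KC72
open Pool.Agent.K7 (dot pos neg rot mkD)

/-- evaluation of a number -/
noncomputable def frc (n : ℕ) (k : ℕ → Bool) : Bool :=
  Nat.rec (motive := fun _ => Bool) (k 0) (fun m _ => k (Nat.succ m)) n

lemma frc_eq (n : ℕ) (k : ℕ → Bool) : frc n k = k n := by cases n <;> rfl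

/-- evaluation of an integer given by its code -/
noncomputable def frcZ (d : ℕ) (k : ℤ → Bool) : Bool :=
  Nat.rec (motive := fun _ => Bool) (frc (Nat.div d 2) (fun h => k (Int.ofNat h)))
    (fun _ _ => frc (Nat.div d 2) (fun h => k (Int.negSucc h))) (Nat.mod d 2)

lemma frcZ_ex {d : ℕ} {k : ℤ → Bool} (h : frcZ d k = true) : ∃ z, k z = true := by
  unfold frcZ at h
  generalize Nat.mod d 2 = m at h
  cases m with
  | zero =>
    have h' : frc (Nat.div d 2) (fun h => k (Int.ofNat h)) = true := h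
    rw [frc_eq] at h'
    exact ⟨_, h'⟩
  | succ m =>
    have h' : frc (Nat.div d 2) (fun h => k (Int.negSucc h)) = true := h
    rw [frc_eq] at h'
    exact ⟨_, h'⟩

/-- decoding of a list of integers -/
noncomputable def dzK (W f : ℕ) : ℕ → List ℤ → (List ℤ → Bool) → Bool :=
  Nat.rec (motive := fun _ => ℕ → List ℤ → (List ℤ → Bool) → Bool) (fun _ acc k => k acc)
    (fun _ ih n acc k => Nat.rec (motive := fun _ => Bool) (k acc) (fun _ _ =>
      frcZ (Nat.pred (Nat.mod n W)) (fun z => frc (Nat.div n W) (fun n' => ih n' (z :: acc) k))) n) f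

lemma dzK_ex {W : ℕ} {k : List ℤ → Bool} : ∀ (f n : ℕ) (acc : List ℤ),
    dzK W f n acc k = true → ∃ l, k l = true := by
  intro f
  induction f with
  | zero => intro n acc h; exact ⟨_, h⟩
  | succ f ih =>
    intro n acc h
    cases n with
    | zero => exact ⟨_, h⟩
    | succ n =>
      have h' : frcZ (Nat.pred (Nat.mod (n + 1) W)) (fun z => frc (Nat.div (n + 1) W)
        (fun n' => dzK W f n' (z :: acc) k)) = true := h
      obtain ⟨z, hz⟩ := frcZ_ex h'
      rw [frc_eq] at hz
      exact ih _ _ hz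

/-- decoding of a list of numbers -/
noncomputable def dnK (f : ℕ) : ℕ → List ℕ → (List ℕ → Bool) → Bool :=
  Nat.rec (motive := fun _ => ℕ → List ℕ → (List ℕ → Bool) → Bool) (fun _ acc k => k acc)
    (fun _ ih n acc k => Nat.rec (motive := fun _ => Bool) (k acc) (fun _ _ =>
      frc (Nat.pred (Nat.mod n 16)) (fun z => frc (Nat.div n 16) (fun n' => ih n' (z :: acc) k))) n) f

lemma dnK_ex {k : List ℕ → Bool} : ∀ (f n : ℕ) (acc : List ℕ),
    dnK f n acc k = true → ∃ l, k l = true := by
  intro f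
  induction f with
  | zero => intro n acc h; exact ⟨_, h⟩
  | succ f ih =>
    intro n acc h
    cases n with
    | zero => exact ⟨_, h⟩
    | succ n =>
      have h' : frc (Nat.pred (Nat.mod (n + 1) 16)) (fun z => frc (Nat.div (n + 1) 16)
        (fun n' => dnK f n' (z :: acc) k)) = true := h
      rw [frc_eq, frc_eq] at h'
      exact ih _ _ h'

/-- decoding of a list of rows -/
noncomputable def dmK (W f : ℕ) (cs : List ℕ) : (List (List ℤ) → Bool) → Bool :=
  List.rec (motive := fun _ => (List (List ℤ) → Bool) → Bool) (fun k => k [])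
    (fun c _ ih k => ih (fun R => dzK W f c [] (fun r => k (r :: R)))) cs

lemma dmK_ex {W f : ℕ} : ∀ (cs : List ℕ) {k : List (List ℤ) → Bool},
    dmK W f cs k = true → ∃ R, k R = true := by
  intro cs
  induction cs with
  | nil => intro k h; exact ⟨_, h⟩
  | cons c cs ih =>
    intro k h
    obtain ⟨R, hR⟩ := ih (k := fun R => dzK W f c [] (fun r => k (r :: R))) h
    obtain ⟨r, hr⟩ := dzK_ex _ _ _ hR
    exact ⟨_, hr⟩

/-- the residue -/
noncomputable def rsd (d : ℕ) (x : ℤ) : ℕ := Int.rec (motive := fun _ => ℕ) (fun n => Nat.mod n d)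
  (fun n => Nat.sub (Nat.pred d) (Nat.mod n d)) x

/-- the absolute value -/
noncomputable def nab (x : ℤ) : ℕ := Int.rec (motive := fun _ => ℕ) (fun n => n) Nat.succ x

/-- the larger number -/
noncomputable def mxN (a b : ℕ) : ℕ := Bool.rec (motive := fun _ => ℕ) a b (Nat.ble a b)

/-- the coefficients in the order of the enumeration -/
noncomputable def csK (d : ℕ) (w : List ℤ) : List ℤ → List (ℕ × ℕ × ℕ) → ℕ →
    (List ℤ → List (ℕ × ℕ × ℕ) → ℕ → Bool) → Bool :=
  List.rec (motive := fun _ => List ℤ → List (ℕ × ℕ × ℕ) → ℕ →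
    (List ℤ → List (ℕ × ℕ × ℕ) → ℕ → Bool) → Bool) (fun ws cs M k => k ws cs M)
    (fun x _ ih ws cs M k => frc (rsd d x) (fun a => frc (Nat.sub d a) (fun b =>
      frc (mxN (nab x) M) (fun M' => ih (x :: ws) ((a, b, M') :: cs) M' k)))) w

lemma csK_ex {d : ℕ} {k : List ℤ → List (ℕ × ℕ × ℕ) → ℕ → Bool} : ∀ (w ws : List ℤ)
    (cs : List (ℕ × ℕ × ℕ)) (M : ℕ), csK d w ws cs M k = true → ∃ ws cs M, k ws cs M = true := by
  intro w
  induction w with
  | nil => intro ws cs M h; exact ⟨_, _, _, h⟩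
  | cons x w ih =>
    intro ws cs M h
    have h' : frc (rsd d x) (fun a => frc (Nat.sub d a) (fun b =>
      frc (mxN (nab x) M) (fun M' => csK d w (x :: ws) ((a, b, M') :: cs) M' k))) = true := h
    rw [frc_eq, frc_eq, frc_eq] at h'
    exact ih _ _ _ h'

/-- a coded system with solutions -/
structure EC where
  /-- the multiplicities -/
  m : List ℕ
  /-- their sum -/
  n : ℕ
  /-- the base -/
  W : ℕ
  /-- the free coordinates -/
  fr : ℕ
  /-- the denominator -/
  d : ℕ
  /-- the coordinates -/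
  B : List ℕ
  /-- the multipliers -/
  mu : List ℕ
  /-- the factor -/
  t : ℕ
  /-- the coefficients of the filter -/
  r : ℕ
  /-- the functional -/
  w : ℕ
  /-- the zeros -/
  aL : ℕ

/-- a coded system without solutions -/
structure ZC where
  /-- the multiplicities -/
  m : List ℕ
  /-- the base -/
  W : ℕ
  /-- the denominator -/
  d : ℕ
  /-- the multipliers -/
  mu : List ℕ

/-- the check of a system with solutions -/
noncomputable def chkEK (P : Pk) (C : Dat) (look : List ℤ → List ℤ → Bool) (ps : List (Fin 12))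
    (e : EC) : Bool :=
  dmK e.W 12 e.B (fun B => dmK e.W 60 e.mu (fun mu => dnK 12 e.fr [] (fun fr =>
    dzK 32 12 e.aL [] (fun aL => dzK e.W 12 e.r [] (fun r => dzK e.W 12 e.w [] (fun w =>
    frcZ e.t (fun t => csK (Nat.mul 12 e.d) w [] [] 0 (fun ws cs M =>
    chkEP P C look ps (e.m, ⟨fr, Int.ofNat e.d, B, mu⟩) e.d t M e.n r ws cs aL))))))))

/-- no free coordinates -/
def B0 : List (List ℤ) := [[], [], [], [], [], [], [], [], [], [], [], []]

/-- the check of a system without solutions -/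
noncomputable def chkZK (P : Pk) (ps : List (Fin 12)) (e : ZC) : Bool :=
  dmK e.W 60 e.mu (fun mu => and (ps1 e.m)
    (Sys.okP ⟨[], Int.ofNat e.d, B0, mu⟩ P e.d (RwP P ps e.m)))

theorem chkEK_ex {P : Pk} {C : Dat} (h : P.Ok C) {look : List ℤ → List ℤ → Bool}
    (hlook : ∀ D D' : List ℤ, D.length = 12 → D'.length = 12 → look D D' = true →
      lk C.look 12 D D' = true) {ps : List (Fin 12)} {e : EC}
    (he : chkEK P C look ps e = true) : ∃ S : Sys, chkE C ps (e.m, S) = true := by
  unfold chkEK at he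
  obtain ⟨B, he⟩ := dmK_ex _ he
  obtain ⟨mu, he⟩ := dmK_ex _ he
  obtain ⟨fr, he⟩ := dnK_ex _ _ _ he
  obtain ⟨aL, he⟩ := dzK_ex _ _ _ he
  obtain ⟨r, he⟩ := dzK_ex _ _ _ he
  obtain ⟨w, he⟩ := dzK_ex _ _ _ he
  obtain ⟨t, he⟩ := frcZ_ex he
  obtain ⟨ws, cs, M, he⟩ := csK_ex _ _ _ _ he
  exact ⟨_, chkE_fast' h hlook he⟩

theorem chkZK_ex {P : Pk} {C : Dat} (h : P.Ok C) {ps : List (Fin 12)} {e : ZC}
    (he : chkZK P ps e = true) : ∃ S : Sys, chkZ C ps (e.m, S) = true := by
  unfold chkZK at he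
  obtain ⟨mu, he⟩ := dmK_ex _ he
  rw [Bool.and_eq_true] at he
  refine ⟨⟨[], Int.ofNat e.d, B0, mu⟩, ?_⟩
  unfold chkZ
  rw [Bool.and_eq_true, Bool.and_eq_true]
  refine ⟨Sys.ok_of h (of_ps1 he.1) he.2, rfl, ?_⟩
  have e0 : Sys.full ⟨[], Int.ofNat e.d, B0, mu⟩ [] = [0, 0, 0, 0, 0, 0, 0, 0, 0, 0, 0, 0] := by
    unfold Sys.full B0
    simp [dot]
  rw [e0]
  rfl

/-- all systems with solutions -/
noncomputable def allEK (P : Pk) (C : Dat) (look : List ℤ → List ℤ → Bool) (ps : List (Fin 12))
    (es : List EC) : Bool :=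
  List.rec (motive := fun _ => Bool) true (fun e _ ih => and (chkEK P C look ps e) ih) es

/-- all systems without solutions -/
noncomputable def allZK (P : Pk) (ps : List (Fin 12)) (es : List ZC) : Bool :=
  List.rec (motive := fun _ => Bool) true (fun e _ ih => and (chkZK P ps e) ih) es

lemma allEK_ex {P : Pk} {C : Dat} (h : P.Ok C) {look : List ℤ → List ℤ → Bool}
    (hlook : ∀ D D' : List ℤ, D.length = 12 → D'.length = 12 → look D D' = true →
      lk C.look 12 D D' = true) {ps : List (Fin 12)} : ∀ {es : List EC},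
    allEK P C look ps es = true → ∃ E : List (List ℕ × Sys), E.all (chkE C ps) = true ∧
      E.map Prod.fst = es.map EC.m := by
  intro es
  induction es with
  | nil => intro _; exact ⟨[], rfl, rfl⟩
  | cons e es ih =>
    intro he
    have he' : and (chkEK P C look ps e) (allEK P C look ps es) = true := he
    rw [Bool.and_eq_true] at he'
    obtain ⟨S, hS⟩ := chkEK_ex h hlook he'.1
    obtain ⟨E, h1, h2⟩ := ih he'.2
    refine ⟨(e.m, S) :: E, ?_, ?_⟩
    · rw [List.all_cons, hS, h1]; rfl
    · rw [List.map_cons, List.map_cons, h2]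

lemma allZK_ex {P : Pk} {C : Dat} (h : P.Ok C) {ps : List (Fin 12)} : ∀ {es : List ZC},
    allZK P ps es = true → ∃ E : List (List ℕ × Sys), E.all (chkZ C ps) = true ∧
      E.map Prod.fst = es.map ZC.m := by
  intro es
  induction es with
  | nil => intro _; exact ⟨[], rfl, rfl⟩
  | cons e es ih =>
    intro he
    have he' : and (chkZK P ps e) (allZK P ps es) = true := he
    rw [Bool.and_eq_true] at he'
    obtain ⟨S, hS⟩ := chkZK_ex h he'.1
    obtain ⟨E, h1, h2⟩ := ih he'.2
    refine ⟨(e.m, S) :: E, ?_, ?_⟩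
    · rw [List.all_cons, hS, h1]; rfl
    · rw [List.map_cons, List.map_cons, h2]

/-- **the check of a configuration** -/
theorem okC_of {P : Pk} {C : Dat} (h : P.Ok C) {look : List ℤ → List ℤ → Bool}
    (hlook : ∀ D D' : List ℤ, D.length = 12 → D'.length = 12 → look D D' = true →
      lk C.look 12 D D' = true) {ps : List (Fin 12)} (es : List EC) (zs : List ZC)
    (h1 : allEK P C look ps es = true) (h2 : allZK P ps zs = true)
    (h3 : cvr ps.length (es.map EC.m) (zs.map ZC.m) = true) : OkC C ps := by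
  obtain ⟨E, a1, a2⟩ := allEK_ex h hlook h1
  obtain ⟨Z, b1, b2⟩ := allZK_ex h h2
  exact ⟨E, Z, a1, b1, by rw [a2, b2]; exact h3⟩

end Pool.Agent.KY
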