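import Pool.Agent.Lib_helper72.KY.Sh
import Pool.Agent.Lib_helper72.K8.Sub

/-!
# A point of order twelve: divisors of monomials, the table
-/

set_option autoImplicit false
set_option linter.unusedSectionVars false
set_option linter.unusedSimpArgs false
set_option linter.unusedVariables false

namespace Pool.Agent.KY

open KC72
open Pool.Agent.K7 (dot pos neg rot mkD code)

/-- the orders of the units -/
def orow : List (List ℤ) :=
  [[.negSucc 1, .negSucc 1, .negSucc 1, .negSucc 1, .negSucc 1, .negSucc 1, .negSucc 2, .negSucc 2, .negSucc 2, .negSucc 2, .negSucc 2],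
    [.ofNat 1, .ofNat 0, .ofNat 0, .ofNat 0, .ofNat 0, .ofNat 0, .ofNat 0, .ofNat 0, .ofNat 0, .ofNat 0, .ofNat 0],
    [.ofNat 0, .ofNat 1, .ofNat 0, .ofNat 0, .ofNat 0, .ofNat 0, .ofNat 1, .ofNat 0, .ofNat 0, .ofNat 0, .ofNat 0],
    [.ofNat 0, .ofNat 0, .ofNat 1, .ofNat 0, .ofNat 0, .ofNat 0, .ofNat 0, .ofNat 1, .ofNat 0, .ofNat 0, .ofNat 0],
    [.ofNat 0, .ofNat 0, .ofNat 0, .ofNat 1, .ofNat 0, .ofNat 0, .ofNat 0, .ofNat 0, .ofNat 1, .ofNat 0, .ofNat 0],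
    [.ofNat 0, .ofNat 0, .ofNat 0, .ofNat 0, .ofNat 1, .ofNat 0, .ofNat 0, .ofNat 0, .ofNat 0, .ofNat 1, .ofNat 0],
    [.ofNat 0, .ofNat 0, .ofNat 0, .ofNat 0, .ofNat 0, .ofNat 2, .ofNat 0, .ofNat 0, .ofNat 0, .ofNat 0, .ofNat 1],
    [.ofNat 0, .ofNat 0, .ofNat 0, .ofNat 0, .ofNat 1, .ofNat 0, .ofNat 0, .ofNat 0, .ofNat 0, .ofNat 0, .ofNat 1],
    [.ofNat 0, .ofNat 0, .ofNat 0, .ofNat 1, .ofNat 0, .ofNat 0, .ofNat 0, .ofNat 0, .ofNat 0, .ofNat 1, .ofNat 0],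
    [.ofNat 0, .ofNat 0, .ofNat 1, .ofNat 0, .ofNat 0, .ofNat 0, .ofNat 0, .ofNat 0, .ofNat 1, .ofNat 0, .ofNat 0],
    [.ofNat 0, .ofNat 1, .ofNat 0, .ofNat 0, .ofNat 0, .ofNat 0, .ofNat 0, .ofNat 1, .ofNat 0, .ofNat 0, .ofNat 0],
    [.ofNat 1, .ofNat 0, .ofNat 0, .ofNat 0, .ofNat 0, .ofNat 0, .ofNat 2, .ofNat 1, .ofNat 1, .ofNat 1, .ofNat 1]]

lemma orow_eq : orow = (List.finRange 12).map (fun m => [oU 0 (-m), oU 1 (-m), oU 2 (-m), oU 3 (-m),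
    oU 4 (-m), oU 5 (-m), oU 6 (-m), oU 7 (-m), oU 8 (-m), oU 9 (-m), oU 10 (-m)]) := by
  decide +kernel

/-- the divisor of a monomial -/
def divl (ex : List ℤ) : List ℤ := orow.map (fun r => dot r ex)

lemma dot11 (a0 a1 a2 a3 a4 a5 a6 a7 a8 a9 a10 : ℤ) (l : List ℤ) :
    dot [a0, a1, a2, a3, a4, a5, a6, a7, a8, a9, a10] l =
    a0 * l.getD 0 0 + a1 * l.getD 1 0 + a2 * l.getD 2 0 + a3 * l.getD 3 0 + a4 * l.getD 4 0 +
      a5 * l.getD 5 0 + a6 * l.getD 6 0 + a7 * l.getD 7 0 + a8 * l.getD 8 0 + a9 * l.getD 9 0 +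
      a10 * l.getD 10 0 := by
  rcases l with _ | ⟨l0, _ | ⟨l1, _ | ⟨l2, _ | ⟨l3, _ | ⟨l4, _ | ⟨l5, _ | ⟨l6, _ | ⟨l7, _ |
    ⟨l8, _ | ⟨l9, _ | ⟨l10, l⟩⟩⟩⟩⟩⟩⟩⟩⟩⟩⟩ <;> simp [dot] <;> ring

lemma divl_eq (l : List ℤ) :
    divl l = tl (fun m => Dn (fun j : Fin 11 => l.getD j.val 0) (-m)) := by
  have key : ∀ m : Fin 12, dot [oU 0 (-m), oU 1 (-m), oU 2 (-m), oU 3 (-m), oU 4 (-m), oU 5 (-m),
      oU 6 (-m), oU 7 (-m), oU 8 (-m), oU 9 (-m), oU 10 (-m)] l =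
      Dn (fun j : Fin 11 => l.getD j.val 0) (-m) := by
    intro m
    rw [dot11]
    unfold Dn
    rw [sum11]
    show _ = l.getD 0 0 * oU 0 (-m) + l.getD 1 0 * oU 1 (-m) + l.getD 2 0 * oU 2 (-m) +
      l.getD 3 0 * oU 3 (-m) + l.getD 4 0 * oU 4 (-m) + l.getD 5 0 * oU 5 (-m) +
      l.getD 6 0 * oU 6 (-m) + l.getD 7 0 * oU 7 (-m) + l.getD 8 0 * oU 8 (-m) +
      l.getD 9 0 * oU 9 (-m) + l.getD 10 0 * oU 10 (-m)
    ring
  unfold divl
  rw [orow_eq, List.map_map]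
  show [dot _ l, dot _ l, dot _ l, dot _ l, dot _ l, dot _ l, dot _ l, dot _ l, dot _ l,
    dot _ l, dot _ l, dot _ l] = _
  simp only [key]
  rfl

lemma NN_of {e : Fin 12 → ℤ} {l : List ℤ} (h : divl l = tl (OO e)) :
    (fun j : Fin 11 => l.getD j.val 0) = NN e := by
  rw [divl_eq] at h
  apply Dn_inj
  intro i
  have h2 := tl_inj h (-i)
  simp only [neg_neg] at h2
  rw [h2, Dn_NN]

/-- look up -/
def lookC (tab : List (List (ℕ × ℕ × ℕ))) (cls : List (Mo × Mo)) (D D' : List ℤ) : Bool :=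
  match (tab.getD (code D D' % 127) []).find? (fun e => Nat.beq e.1 (code D D')) with
  | some e => decide (e.2.1 < cls.length) && (decide (e.2.2 < 6) &&
      ((divl (oo cls e.2).2 == D) && (divl (co cls e.2).2 == D')))
  | none => false

lemma lookC_spec {tab : List (List (ℕ × ℕ × ℕ))} {cls : List (Mo × Mo)} {D D' : List ℤ}
    (h : lookC tab cls D D' = true) : ∃ p : ℕ × ℕ, p.1 < cls.length ∧
    p.2 < 6 ∧ divl (oo cls p).2 = D ∧ divl (co cls p).2 = D' := by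
  unfold lookC at h
  split at h
  · rename_i e he
    rw [Bool.and_eq_true, Bool.and_eq_true, Bool.and_eq_true, beq_iff_eq, beq_iff_eq,
      decide_eq_true_eq, decide_eq_true_eq] at h
    exact ⟨e.2, h⟩
  · exact absurd h (by decide)

/-- iterated substitution -/
def shM (T : List Mo) : ℕ → Mo → Mo
  | 0, a => a
  | i + 1, a => subst T (shM T i a)

/-- the base pairs after translation -/
def shP (T : List Mo) (B : List (Mo × Mo × Mo)) (p : ℕ × ℕ) : Mo × Mo :=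
  let t := B.getD p.1 default
  (shM T p.2 (t.1.div t.2.2), shM T p.2 (t.2.1.div t.2.2))

/-- the check of a class -/
def tixC (T : List Mo) (B : List (Mo × Mo × Mo)) (cls : List (Mo × Mo))
    (tix : List (ℕ × ℕ × ℕ)) (c : ℕ) : Bool :=
  (decide ((tix.getD c default).1 < B.length)) &&
  (eqM (cls.getD c default).1 (orb6
    (shP T B ((tix.getD c default).1, (tix.getD c default).2.1)).1
    (shP T B ((tix.getD c default).1, (tix.getD c default).2.1)).2 (tix.getD c default).2.2) &&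
  eqM (cls.getD c default).2 (orb6
    (shP T B ((tix.getD c default).1, (tix.getD c default).2.1)).1
    (shP T B ((tix.getD c default).1, (tix.getD c default).2.1)).2
    (cm6 (tix.getD c default).2.2)))

end Pool.Agent.KY
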