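import Pool.Agent.Lib_helper72.KY.Nx
import Pool.Agent.Lib_helper72.KY.Cd

/-!
# A point of order twelve: a fast check of the translates
-/

set_option autoImplicit false
set_option linter.unusedSectionVars false
set_option linter.unusedSimpArgs false
set_option linter.unusedVariables false

namespace Pool.Agent.KY

open KC72

/-- the signs -/
noncomputable def sgS (S : List Bool) : List ℤ → Bool :=
  List.rec (motive := fun _ => List ℤ → Bool) (fun _ => false) (fun t _ ih e =>
    List.rec (motive := fun _ => Bool) false (fun a as _ => xor (and t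
      (Int.rec (motive := fun _ => Bool) (fun n => Nat.beq (Nat.mod n 2) 1)
        (fun n => Nat.beq (Nat.mod n 2) 0) a)) (ih as)) e) S

lemma sgS_eq : ∀ (T : List Mo) (e : List ℤ), (substL T e).1 = sgS (T.map Prod.fst) e := by
  intro T
  induction T with
  | nil => intro e; cases e <;> rfl
  | cons t T ih =>
    intro e
    cases e with
    | nil => rfl
    | cons a e =>
      show xor (t.1 && (a % 2 == 1)) (substL T e).1 = xor (and t.1
        (Int.rec (motive := fun _ => Bool) (fun n => Nat.beq (Nat.mod n 2) 1)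
        (fun n => Nat.beq (Nat.mod n 2) 0) a)) (sgS (T.map Prod.fst) e)
      rw [ih]
      congr 2
      have b : ∀ x y : ℕ, Nat.beq x y = (x == y) := fun x y => by
        rw [Bool.eq_iff_iff, beq_iff_eq]
        exact ⟨Nat.eq_of_beq_eq_true, fun h => by rw [h]; exact Nat.beq_refl y⟩
      rcases a with n | n
      · show (Int.ofNat n % 2 == 1) = Nat.beq (n % 2) 1
        rw [b, Bool.eq_iff_iff, beq_iff_eq, beq_iff_eq, Int.ofNat_eq_natCast]
        omega
      · show (Int.negSucc n % 2 == 1) = Nat.beq (n % 2) 0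
        rw [b, Bool.eq_iff_iff, beq_iff_eq, beq_iff_eq, Int.negSucc_eq]
        omega

/-- packed generators at the next point -/
structure PT where
  /-- the base -/
  B : ℕ
  /-- the modulus -/
  N : ℕ
  /-- the bound of the entries -/
  M : ℕ
  /-- the length -/
  L : ℕ
  /-- the powers of the base -/
  PB : List ℕ
  /-- the packed rows -/
  R : List ℕ
  /-- the signs -/
  S : List Bool

/-- the table is correct -/
structure PT.Ok (P : PT) (T : List Mo) : Prop where
  PB : P.PB = (List.range P.L).map (fun i => P.B ^ i)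
  R : P.R = T.map (fun t => (pk P.B t.2 % P.N).toNat)
  S : P.S = T.map Prod.fst
  bT : T.all (fun t => bdB P.M t.2) = true
  lT : T.all (fun t => Nat.ble t.2.length P.L) = true
  bN : Nat.ble (P.B ^ P.L) P.N = true
  b0 : Nat.ble 1 P.B = true

/-- the right side for one of the six functions -/
def rs6 (p1 q1 p2 q2 : ℕ) : ℕ → ℕ × ℕ
  | 0 => (p1, q1)
  | 1 => (p2, q2)
  | 2 => (q1, p1)
  | 3 => (Nat.add p2 q1, Nat.add q2 p1)
  | 4 => (q2, p2)
  | _ => (Nat.add p1 q2, Nat.add q1 p2)

/-- the sign of one of the six functions -/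
def sn6 (a b : Bool) : ℕ → Bool
  | 0 => a
  | 1 => b
  | 2 => a
  | 3 => !(xor b a)
  | 4 => b
  | _ => !(xor a b)

/-- the length -/
noncomputable def lenJ (l : List ℤ) : ℕ := List.rec (motive := fun _ => ℕ) 0 (fun _ _ ih => Nat.succ ih) l

lemma lenJ_eq (l : List ℤ) : lenJ l = l.length := by
  induction l with
  | nil => rfl
  | cons a l ih => show Nat.succ (lenJ l) = _; rw [ih]; rfl

/-- equality of a monomial and one of the six functions -/
noncomputable def cm1 (P : PT) (a b : Bool) (p1 q1 p2 q2 bs : ℕ) (g : Mo) (s : ℕ) : Bool :=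
  and (not (xor g.1 (sn6 a b s))) (and (Nat.ble (lenJ g.2) P.L)
    (and (Nat.ble (Nat.succ (Nat.mul 2 (Nat.add (sbn g.2 0) bs))) P.B)
    (dpj g.2 P.PB 0 0 (fun p q => Nat.beq (Nat.mod (Nat.add p (rs6 p1 q1 p2 q2 s).2) P.N)
      (Nat.mod (Nat.add q (rs6 p1 q1 p2 q2 s).1) P.N)))))

/-- the check of a class -/
noncomputable def cmK (P : PT) (f g : Mo × Mo) (s : ℕ) : Bool :=
  dpj f.1.2 P.R 0 0 (fun p1 q1 => dpj f.2.2 P.R 0 0 (fun p2 q2 =>
    frc p1 (fun p1 => frc q1 (fun q1 => frc p2 (fun p2 => frc q2 (fun q2 =>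
    frc (Nat.mul (Nat.add (sbn f.1.2 0) (sbn f.2.2 0)) P.M) (fun bs =>
    and (cm1 P (xor f.1.1 (sgS P.S f.1.2)) (xor f.2.1 (sgS P.S f.2.2)) p1 q1 p2 q2 bs g.1 s)
      (cm1 P (xor f.1.1 (sgS P.S f.1.2)) (xor f.2.1 (sgS P.S f.2.2)) p1 q1 p2 q2 bs g.2
        (cm6 s)))))))))

lemma pk_substL (B : ℤ) : ∀ (T : List Mo) (e : List ℤ),
    pk B (substL T e).2 = dotZ e (T.map (fun t => pk B t.2)) := by
  intro T
  induction T with
  | nil => intro e; cases e <;> rfl
  | cons t T ih =>
    intro e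
    cases e with
    | nil => rfl
    | cons a e =>
      show pk B (axpy 1 (substL T e).2 (t.2.map (fun x => a * x))) = a * pk B t.2 + dotZ e _
      rw [pk_axpy, ih, pk_map_mul]
      ring

lemma bd_map_mul {M : ℤ} (a : ℤ) {v : List ℤ} (h : bd M v) : bd (|a| * M) (v.map (fun x => a * x)) := by
  intro x hx
  rw [List.mem_map] at hx
  obtain ⟨y, hy, rfl⟩ := hx
  rw [abs_mul]
  exact mul_le_mul_of_nonneg_left (h y hy) (abs_nonneg a)

lemma bd_substL {M : ℤ} (hM : 0 ≤ M) : ∀ (T : List Mo) (e : List ℤ), (∀ t ∈ T, bd M t.2) →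
    bd (sab e * M) (substL T e).2 := by
  intro T
  induction T with
  | nil => intro e _ x hx; exact absurd hx (by cases e <;> simp [substL])
  | cons t T ih =>
    intro e hT
    cases e with
    | nil => intro x hx; exact absurd hx (by simp [substL])
    | cons a e =>
      show bd ((|a| + sab e) * M) (axpy 1 (substL T e).2 (t.2.map (fun x => a * x)))
      have h1 := ih e fun u hu => hT u (List.mem_cons_of_mem _ hu)
      have h2 := bd_map_mul a (hT t List.mem_cons_self)
      have h3 := bd_axpy (mul_nonneg (sab_nonneg e) hM) (mul_nonneg (abs_nonneg a) hM) 1 h1 h2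
      rw [abs_one, one_mul] at h3
      refine bd_mono (le_of_eq ?_) h3
      ring

lemma len_substL {L : ℕ} : ∀ (T : List Mo) (e : List ℤ), (∀ t ∈ T, t.2.length ≤ L) →
    (substL T e).2.length ≤ L := by
  intro T
  induction T with
  | nil => intro e _; cases e <;> exact Nat.zero_le _
  | cons t T ih =>
    intro e hT
    cases e with
    | nil => exact Nat.zero_le _
    | cons a e =>
      show (axpy 1 (substL T e).2 (t.2.map (fun x => a * x))).length ≤ L
      rw [axpy_length, List.length_map]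
      exact max_le (ih e fun u hu => hT u (List.mem_cons_of_mem _ hu)) (hT t List.mem_cons_self)

lemma bd_neg {M : ℤ} {v : List ℤ} (h : bd M v) : bd M (v.map (fun x => -x)) := by
  intro x hx
  rw [List.mem_map] at hx
  obtain ⟨y, hy, rfl⟩ := hx
  rw [abs_neg]
  exact h y hy

lemma pk_neg (B : ℤ) (v : List ℤ) : pk B (v.map (fun x => -x)) = - pk B v := by
  induction v with
  | nil => simp [pk]
  | cons a v ih => rw [List.map_cons, pk, ih, pk]; ring

lemma orb6_len {L : ℕ} {f h : Mo} (hf : f.2.length ≤ L) (hh : h.2.length ≤ L) (s : ℕ) :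
    (orb6 f h s).2.length ≤ L := by
  rcases s with _ | _ | _ | _ | _ | s
  · exact hf
  · exact hh
  · show (f.2.map (fun x => -x)).length ≤ L
    rw [List.length_map]; exact hf
  · show (axpy (-1) f.2 h.2).length ≤ L
    rw [axpy_length]; exact max_le hf hh
  · show (h.2.map (fun x => -x)).length ≤ L
    rw [List.length_map]; exact hh
  · show (axpy (-1) h.2 f.2).length ≤ L
    rw [axpy_length]; exact max_le hh hf

lemma orb6_bd {M M' : ℤ} {f h : Mo} (hM : 0 ≤ M) (hM' : 0 ≤ M') (hf : bd M f.2) (hh : bd M' h.2)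
    (s : ℕ) : bd (M + M') (orb6 f h s).2 := by
  rcases s with _ | _ | _ | _ | _ | s
  · exact bd_mono (by linarith) hf
  · exact bd_mono (by linarith) hh
  · exact bd_mono (by linarith) (bd_neg hf)
  · have := bd_axpy hM hM' (-1) hf hh
    rwa [abs_neg, abs_one, one_mul] at this
  · exact bd_mono (by linarith) (bd_neg hh)
  · have := bd_axpy hM' hM (-1) hh hf
    rw [abs_neg, abs_one, one_mul] at this
    exact bd_mono (by linarith) this

lemma orb6_fst (f h : Mo) (s : ℕ) : (orb6 f h s).1 = sn6 f.1 h.1 s := by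
  rcases s with _ | _ | _ | _ | _ | s <;> rfl

lemma orb6_pk {B : ℤ} {N : ℤ} {f h : Mo} {p1 q1 p2 q2 : ℕ}
    (h1 : N ∣ (p1 : ℤ) - q1 - pk B f.2) (h2 : N ∣ (p2 : ℤ) - q2 - pk B h.2) (s : ℕ) :
    N ∣ ((rs6 p1 q1 p2 q2 s).1 : ℤ) - (rs6 p1 q1 p2 q2 s).2 - pk B (orb6 f h s).2 := by
  rcases s with _ | _ | _ | _ | _ | s
  · exact h1
  · exact h2
  · show N ∣ (q1 : ℤ) - p1 - pk B (f.2.map (fun x => -x))
    rw [pk_neg]
    have := (dvd_neg).mpr h1
    have e : -((p1 : ℤ) - q1 - pk B f.2) = (q1 : ℤ) - p1 - -pk B f.2 := by ring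
    rwa [e] at this
  · show N ∣ ((p2 + q1 : ℕ) : ℤ) - ((q2 + p1 : ℕ) : ℤ) - pk B (axpy (-1) f.2 h.2)
    rw [pk_axpy]
    have := dvd_sub h2 h1
    have e : ((p2 : ℤ) - q2 - pk B h.2) - ((p1 : ℤ) - q1 - pk B f.2) =
      ((p2 + q1 : ℕ) : ℤ) - ((q2 + p1 : ℕ) : ℤ) - (-1 * pk B f.2 + pk B h.2) := by push_cast; ring
    rwa [e] at this
  · show N ∣ (q2 : ℤ) - p2 - pk B (h.2.map (fun x => -x))
    rw [pk_neg]
    have := (dvd_neg).mpr h2
    have e : -((p2 : ℤ) - q2 - pk B h.2) = (q2 : ℤ) - p2 - -pk B h.2 := by ring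
    rwa [e] at this
  · show N ∣ ((p1 + q2 : ℕ) : ℤ) - ((q1 + p2 : ℕ) : ℤ) - pk B (axpy (-1) h.2 f.2)
    rw [pk_axpy]
    have := dvd_sub h1 h2
    have e : ((p1 : ℤ) - q1 - pk B f.2) - ((p2 : ℤ) - q2 - pk B h.2) =
      ((p1 + q2 : ℕ) : ℤ) - ((q1 + p2 : ℕ) : ℤ) - (-1 * pk B h.2 + pk B f.2) := by push_cast; ring
    rwa [e] at this

lemma isZ_of_modL {B M N : ℤ} {L : ℕ} (hB : 2 * M < B) (hB1 : 1 ≤ B) (hN : B ^ L ≤ N)
    {v : List ℤ} (hv : bd M v) (hl : v.length ≤ L) (h : N ∣ pk B v) : isZ v = true := by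
  refine isZ_of_pk hB hv ?_
  by_contra hne
  have h1 := Int.le_of_dvd (abs_pos.mpr hne) ((dvd_abs N _).mpr h)
  have h2 := abs_pk_lt hB hB1 v hv
  have h3 : B ^ v.length ≤ B ^ L := pow_le_pow_right₀ hB1 hl
  linarith

lemma pk_powers (B : ℕ) : ∀ (v : List ℤ) (L s : ℕ), v.length ≤ L →
    dotZ v ((((List.range L).map (fun i => B ^ (i + s)))).map (fun r : ℕ => (r : ℤ))) =
      (B : ℤ) ^ s * pk B v := by
  intro v
  induction v with
  | nil => intro L s _; simp [dotZ, pk]
  | cons a v ih =>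
    intro L s hL
    obtain ⟨L, rfl⟩ : ∃ L', L = L' + 1 := ⟨L - 1, by rw [List.length_cons] at hL; omega⟩
    rw [List.range_succ_eq_map, List.map_cons, List.map_cons, List.map_map, List.map_map]
    show a * ((B ^ (0 + s) : ℕ) : ℤ) + dotZ v _ = _
    have h1 := ih L (s + 1) (by rw [List.length_cons] at hL; omega)
    rw [List.map_map] at h1
    have e : (((fun r : ℕ => (r : ℤ)) ∘ fun i => B ^ (i + s)) ∘ Nat.succ) =
        ((fun r : ℕ => (r : ℤ)) ∘ fun i => B ^ (i + (s + 1))) := by
      funext i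
      simp only [Function.comp_apply]
      congr 2
      omega
    rw [e, h1, pk, zero_add]
    push_cast
    ring

lemma sab_bd (v : List ℤ) : bd (sab v) v := by
  induction v with
  | nil => intro x hx; simp at hx
  | cons a v ih =>
    intro x hx
    show |x| ≤ |a| + sab v
    rcases List.mem_cons.mp hx with rfl | hx
    · linarith [sab_nonneg v]
    · linarith [ih x hx, abs_nonneg a]

lemma dotZ_mod {N : ℤ} (hN : 0 < N) (B : ℤ) : ∀ (T : List Mo) (e : List ℤ),
    N ∣ dotZ e ((T.map (fun t => (pk B t.2 % N).toNat)).map (fun r : ℕ => (r : ℤ))) -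
      dotZ e (T.map (fun t => pk B t.2)) := by
  intro T
  induction T with
  | nil => intro e; cases e <;> simp [dotZ]
  | cons t T ih =>
    intro e
    cases e with
    | nil => simp [dotZ]
    | cons a e =>
      rw [List.map_cons, List.map_cons, List.map_cons]
      show N ∣ (a * (((pk B t.2 % N).toNat : ℕ) : ℤ) + dotZ e _) - (a * pk B t.2 + dotZ e _)
      rw [Int.toNat_of_nonneg (Int.emod_nonneg _ hN.ne')]
      have h1 := Int.emod_add_mul_ediv (pk B t.2) N
      have e1 : (a * (pk B t.2 % N) + dotZ e ((T.map (fun t => (pk B t.2 % N).toNat)).map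
          (fun r : ℕ => (r : ℤ)))) - (a * pk B t.2 + dotZ e (T.map (fun t => pk B t.2))) =
          N * (-(a * (pk B t.2 / N))) + (dotZ e ((T.map (fun t => (pk B t.2 % N).toNat)).map
          (fun r : ℕ => (r : ℤ))) - dotZ e (T.map (fun t => pk B t.2))) := by
        have h2 : pk B t.2 % N = pk B t.2 - N * (pk B t.2 / N) := by linarith
        rw [h2]; ring
      rw [e1]
      exact dvd_add (dvd_mul_right _ _) (ih e)

lemma cm1_spec {P : PT} {T : List Mo} (h : P.Ok T) {f h' : Mo} {p1 q1 p2 q2 bs : ℕ}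
    (h1 : (P.N : ℤ) ∣ (p1 : ℤ) - q1 - pk P.B (subst T f).2)
    (h2 : (P.N : ℤ) ∣ (p2 : ℤ) - q2 - pk P.B (subst T h').2)
    (hb : (sab f.2 + sab h'.2) * (P.M : ℤ) = bs) {g : Mo} {s : ℕ}
    (hc : cm1 P (subst T f).1 (subst T h').1 p1 q1 p2 q2 bs g s = true) :
    eqM g (orb6 (subst T f) (subst T h') s) = true := by
  unfold cm1 at hc
  rw [Bool.and_eq_true, Bool.and_eq_true, Bool.and_eq_true] at hc
  obtain ⟨c1, c2, c3, c4⟩ := hc
  have hT : ∀ t ∈ T, bd (P.M : ℤ) t.2 := by
    intro t ht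
    have := h.bT
    rw [List.all_eq_true] at this
    have := this t ht
    unfold bdB at this
    rw [List.all_eq_true] at this
    intro x hx
    exact of_decide_eq_true (this x hx)
  have hL : ∀ t ∈ T, t.2.length ≤ P.L := by
    intro t ht
    have := h.lT
    rw [List.all_eq_true] at this
    exact Nat.le_of_ble_eq_true (this t ht)
  have hM : (0 : ℤ) ≤ P.M := by positivity
  have hB1 : (1 : ℤ) ≤ P.B := by exact_mod_cast Nat.le_of_ble_eq_true h.b0
  have hN : (P.B : ℤ) ^ P.L ≤ P.N := by exact_mod_cast Nat.le_of_ble_eq_true h.bN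
  unfold eqM
  rw [Bool.and_eq_true, beq_iff_eq, orb6_fst]
  refine ⟨?_, ?_⟩
  · revert c1
    cases g.1 <;> cases sn6 (subst T f).1 (subst T h').1 s <;> simp
  · have b1 := bd_substL hM T f.2 hT
    have b2 := bd_substL hM T h'.2 hT
    have b3 := orb6_bd (f := subst T f) (h := subst T h') (mul_nonneg (sab_nonneg _) hM)
      (mul_nonneg (sab_nonneg _) hM) b1 b2 s
    have b4 := bd_axpy (sab_nonneg g.2) (add_nonneg (mul_nonneg (sab_nonneg _) hM)
      (mul_nonneg (sab_nonneg _) hM)) (-1) (sab_bd g.2) b3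
    rw [abs_neg, abs_one, one_mul, ← add_mul, hb] at b4
    have c3' : 2 * (sbn g.2 0 + bs) < P.B := Nat.le_of_ble_eq_true c3
    refine isZ_of_modL (M := sab g.2 + bs) ?_ hB1 hN b4 ?_ ?_
    · have := sbn_eq g.2 0
      rw [Nat.cast_zero, zero_add] at this
      rw [← this]
      exact_mod_cast c3'
    · rw [axpy_length]
      refine max_le ?_ (orb6_len (f := subst T f) (h := subst T h') (len_substL T f.2 hL)
        (len_substL T h'.2 hL) s)
      rw [← lenJ_eq]
      exact Nat.le_of_ble_eq_true c2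
    · rw [pk_axpy]
      obtain ⟨p, q, d1, d2⟩ := dpj_spec (fun p q => Nat.beq
        (Nat.mod (Nat.add p (rs6 p1 q1 p2 q2 s).2) P.N)
        (Nat.mod (Nat.add q (rs6 p1 q1 p2 q2 s).1) P.N)) g.2 P.PB 0 0
      rw [d1] at c4
      have k3 : (p + (rs6 p1 q1 p2 q2 s).2) % P.N = (q + (rs6 p1 q1 p2 q2 s).1) % P.N :=
        Nat.eq_of_beq_eq_true c4
      have k4 : (P.N : ℤ) ∣ ((q + (rs6 p1 q1 p2 q2 s).1 : ℕ) : ℤ) -
          ((p + (rs6 p1 q1 p2 q2 s).2 : ℕ) : ℤ) := Nat.modEq_iff_dvd.mp k3
      have k5 := orb6_pk h1 h2 s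
      have k6 := pk_powers P.B g.2 P.L 0 (by rw [← lenJ_eq]; exact Nat.le_of_ble_eq_true c2)
      rw [pow_zero, one_mul] at k6
      have k7 : dotZ g.2 (P.PB.map (fun r : ℕ => (r : ℤ))) = pk P.B g.2 := by
        rw [h.PB, ← k6]
        rfl
      rw [k7, Nat.cast_zero, sub_zero, zero_add] at d2
      have e : -1 * pk (P.B : ℤ) g.2 + pk P.B (orb6 (subst T f) (subst T h') s).2 =
          (((q + (rs6 p1 q1 p2 q2 s).1 : ℕ) : ℤ) - ((p + (rs6 p1 q1 p2 q2 s).2 : ℕ) : ℤ)) -
          (((rs6 p1 q1 p2 q2 s).1 : ℤ) - (rs6 p1 q1 p2 q2 s).2 -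
            pk P.B (orb6 (subst T f) (subst T h') s).2) := by
        rw [← d2]; push_cast; ring
      rw [e]
      exact dvd_sub k4 k5

lemma cmK_spec {P : PT} {T : List Mo} (h : P.Ok T) {f g : Mo × Mo} {s : ℕ}
    (hc : cmK P f g s = true) : eqM g.1 (orb6 (subst T f.1) (subst T f.2) s) = true ∧
      eqM g.2 (orb6 (subst T f.1) (subst T f.2) (cm6 s)) = true := by
  have hN0 : 0 < P.N := by
    have h1 := Nat.le_of_ble_eq_true h.bN
    have h2 := Nat.le_of_ble_eq_true h.b0
    exact lt_of_lt_of_le (pow_pos h2 _) h1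
  have hN : (0 : ℤ) < P.N := by exact_mod_cast hN0
  unfold cmK at hc
  obtain ⟨p1, q1, a1, a2⟩ := dpj_spec (fun p1 q1 => dpj f.2.2 P.R 0 0 (fun p2 q2 =>
    frc p1 (fun p1 => frc q1 (fun q1 => frc p2 (fun p2 => frc q2 (fun q2 =>
    frc (Nat.mul (Nat.add (sbn f.1.2 0) (sbn f.2.2 0)) P.M) (fun bs =>
    and (cm1 P (xor f.1.1 (sgS P.S f.1.2)) (xor f.2.1 (sgS P.S f.2.2)) p1 q1 p2 q2 bs g.1 s)
      (cm1 P (xor f.1.1 (sgS P.S f.1.2)) (xor f.2.1 (sgS P.S f.2.2)) p1 q1 p2 q2 bs g.2
        (cm6 s))))))))) f.1.2 P.R 0 0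
  rw [a1] at hc
  obtain ⟨p2, q2, b1, b2⟩ := dpj_spec (fun p2 q2 =>
    frc p1 (fun p1 => frc q1 (fun q1 => frc p2 (fun p2 => frc q2 (fun q2 =>
    frc (Nat.mul (Nat.add (sbn f.1.2 0) (sbn f.2.2 0)) P.M) (fun bs =>
    and (cm1 P (xor f.1.1 (sgS P.S f.1.2)) (xor f.2.1 (sgS P.S f.2.2)) p1 q1 p2 q2 bs g.1 s)
      (cm1 P (xor f.1.1 (sgS P.S f.1.2)) (xor f.2.1 (sgS P.S f.2.2)) p1 q1 p2 q2 bs g.2
        (cm6 s)))))))) f.2.2 P.R 0 0
  rw [b1] at hc
  simp only [frc_eq] at hc
  rw [Bool.and_eq_true] at hc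
  have s1 : (xor f.1.1 (sgS P.S f.1.2)) = (subst T f.1).1 := by
    rw [h.S, ← sgS_eq]; rfl
  have s2 : (xor f.2.1 (sgS P.S f.2.2)) = (subst T f.2).1 := by
    rw [h.S, ← sgS_eq]; rfl
  rw [s1, s2] at hc
  have m1 := dotZ_mod hN P.B T f.1.2
  have m2 := dotZ_mod hN P.B T f.2.2
  rw [← h.R] at m1 m2
  rw [Nat.cast_zero, sub_zero, zero_add] at a2 b2
  have h1 : (P.N : ℤ) ∣ (p1 : ℤ) - q1 - pk P.B (subst T f.1).2 := by
    show (P.N : ℤ) ∣ (p1 : ℤ) - q1 - pk P.B (substL T f.1.2).2
    rw [pk_substL, a2]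
    exact m1
  have h2 : (P.N : ℤ) ∣ (p2 : ℤ) - q2 - pk P.B (subst T f.2).2 := by
    show (P.N : ℤ) ∣ (p2 : ℤ) - q2 - pk P.B (substL T f.2.2).2
    rw [pk_substL, b2]
    exact m2
  have hb : (sab f.1.2 + sab f.2.2) * (P.M : ℤ) =
      ((Nat.mul (Nat.add (sbn f.1.2 0) (sbn f.2.2 0)) P.M : ℕ) : ℤ) := by
    have e1 := sbn_eq f.1.2 0
    have e2 := sbn_eq f.2.2 0
    rw [Nat.cast_zero, zero_add] at e1 e2
    rw [← e1, ← e2]
    show _ = (((sbn f.1.2 0 + sbn f.2.2 0) * P.M : ℕ) : ℤ)
    push_cast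
    ring
  exact ⟨cm1_spec h h1 h2 hb hc.1, cm1_spec h h1 h2 hb hc.2⟩

/-- the entry at a place -/
noncomputable def nthK (l : List (Mo × Mo)) : ℕ → (Mo × Mo → Bool) → Bool :=
  List.rec (motive := fun _ => ℕ → (Mo × Mo → Bool) → Bool) (fun _ _ => false)
    (fun a _ ih i k => Nat.rec (motive := fun _ => Bool) (k a) (fun j _ => ih j k) i) l

lemma nthK_spec {k : Mo × Mo → Bool} : ∀ {l : List (Mo × Mo)} {i : ℕ}, nthK l i k = true →
    i < l.length ∧ k (l.getD i default) = true := by
  intro l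
  induction l with
  | nil => intro i h; exact absurd (show false = true from h) (by decide)
  | cons a l ih =>
    intro i h
    cases i with
    | zero => exact ⟨by simp, h⟩
    | succ i =>
      have h' : nthK l i k = true := h
      obtain ⟨h1, h2⟩ := ih h'
      exact ⟨by rw [List.length_cons]; omega, by rw [List.getD_cons_succ]; exact h2⟩

/-- the check of all classes -/
noncomputable def nxA (P : PT) (cls : List (Mo × Mo)) (l : List (Mo × Mo)) :
    List (ℕ × ℕ) → Bool :=
  List.rec (motive := fun _ => List (ℕ × ℕ) → Bool) (fun _ => true) (fun f _ ih x =>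
    List.rec (motive := fun _ => Bool) false (fun n ns _ =>
      and (nthK cls n.1 (fun g => cmK P f g n.2)) (ih ns)) x) l

lemma nxA_spec {P : PT} {T : List Mo} (h : P.Ok T) {cls : List (Mo × Mo)} :
    ∀ {l : List (Mo × Mo)} {x : List (ℕ × ℕ)}, nxA P cls l x = true → ∀ c < l.length,
      (x.getD c default).1 < cls.length ∧
      eqM (cls.getD (x.getD c default).1 default).1 (orb6 (subst T (l.getD c default).1)
        (subst T (l.getD c default).2) (x.getD c default).2) = true ∧
      eqM (cls.getD (x.getD c default).1 default).2 (orb6 (subst T (l.getD c default).1)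
        (subst T (l.getD c default).2) (cm6 (x.getD c default).2)) = true := by
  intro l
  induction l with
  | nil => intro x _ c hc; exact absurd hc (Nat.not_lt_zero c)
  | cons f l ih =>
    intro x hx c hc
    cases x with
    | nil => exact absurd (show false = true from hx) (by decide)
    | cons n ns =>
      have hx' : and (nthK cls n.1 (fun g => cmK P f g n.2)) (nxA P cls l ns) = true := hx
      rw [Bool.and_eq_true] at hx'
      cases c with
      | zero =>
        obtain ⟨h1, h2⟩ := nthK_spec hx'.1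
        exact ⟨h1, cmK_spec h h2⟩
      | succ c =>
        rw [List.getD_cons_succ, List.getD_cons_succ]
        exact ih hx'.2 c (by rw [List.length_cons] at hc; omega)

theorem nx_of {P : PT} {T : List Mo} (h : P.Ok T) {cls : List (Mo × Mo)} {nxt : List (ℕ × ℕ)}
    (hx : nxA P cls cls nxt = true) : ∀ c < cls.length, nxC T cls nxt c = true := by
  intro c hc
  obtain ⟨h1, h2, h3⟩ := nxA_spec h hx c hc
  unfold nxC
  rw [Bool.and_eq_true, Bool.and_eq_true, decide_eq_true_eq]
  exact ⟨h1, h2, h3⟩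

/-- the entry of a list at a place -/
noncomputable def nthG {α : Type} (l : List α) : ℕ → (α → Bool) → Bool :=
  List.rec (motive := fun _ => ℕ → (α → Bool) → Bool) (fun _ _ => false)
    (fun a _ ih i k => Nat.rec (motive := fun _ => Bool) (k a) (fun j _ => ih j k) i) l

lemma nthG_spec {α : Type} {k : α → Bool} {d : α} : ∀ {l : List α} {i : ℕ}, nthG l i k = true →
    i < l.length ∧ k (l.getD i d) = true := by
  intro l
  induction l with
  | nil => intro i h; exact absurd (show false = true from h) (by decide)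
  | cons a l ih =>
    intro i h
    cases i with
    | zero => exact ⟨by simp, h⟩
    | succ i =>
      have h' : nthG l i k = true := h
      obtain ⟨h1, h2⟩ := ih h'
      exact ⟨by rw [List.length_cons]; omega, by rw [List.getD_cons_succ]; exact h2⟩

/-- the check of the origins -/
noncomputable def rkA (B : List (Mo × Mo × Mo)) (n : ℕ) (nxt : List (ℕ × ℕ))
    (rk : List (ℕ × ℕ × ℕ)) (l : List (Mo × Mo)) : List (ℕ × ℕ × ℕ) → ℕ → Bool :=
  List.rec (motive := fun _ => List (ℕ × ℕ × ℕ) → ℕ → Bool) (fun _ _ => true) (fun f _ ih x c =>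
    List.rec (motive := fun _ => Bool) false (fun r rs _ =>
      and (Nat.rec (motive := fun _ => Bool)
        (nthG B r.2.1 (fun t => and (eqM f.1 (orb6 (t.1.div t.2.2) (t.2.1.div t.2.2) r.2.2))
          (eqM f.2 (orb6 (t.1.div t.2.2) (t.2.1.div t.2.2) (cm6 r.2.2)))))
        (fun i _ => and (Nat.ble (Nat.succ r.2.1) n) (and (nthG nxt r.2.1 (fun m => Nat.beq m.1 c))
          (nthG rk r.2.1 (fun m => Nat.ble m.1 i)))) r.1) (ih rs (Nat.succ c))) x) l

lemma rkA_spec {B : List (Mo × Mo × Mo)} {cls : List (Mo × Mo)} {nxt : List (ℕ × ℕ)}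
    {rk : List (ℕ × ℕ × ℕ)} : ∀ {l : List (Mo × Mo)} {x : List (ℕ × ℕ × ℕ)} {c₀ : ℕ},
    rkA B cls.length nxt rk l x c₀ = true → ∀ c < l.length,
    (if (x.getD c default).1 = 0 then
      (x.getD c default).2.1 < B.length ∧
      eqM (l.getD c default).1 (orb6
        ((B.getD (x.getD c default).2.1 default).1.div (B.getD (x.getD c default).2.1 default).2.2)
        ((B.getD (x.getD c default).2.1 default).2.1.div (B.getD (x.getD c default).2.1 default).2.2)
        (x.getD c default).2.2) = true ∧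
      eqM (l.getD c default).2 (orb6
        ((B.getD (x.getD c default).2.1 default).1.div (B.getD (x.getD c default).2.1 default).2.2)
        ((B.getD (x.getD c default).2.1 default).2.1.div (B.getD (x.getD c default).2.1 default).2.2)
        (cm6 (x.getD c default).2.2)) = true
    else (x.getD c default).2.1 < cls.length ∧
      (nxt.getD (x.getD c default).2.1 default).1 = c₀ + c ∧
      (rk.getD (x.getD c default).2.1 default).1 < (x.getD c default).1) := by
  intro l
  induction l with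
  | nil => intro x c₀ _ c hc; exact absurd hc (Nat.not_lt_zero c)
  | cons f l ih =>
    intro x c₀ hx c hc
    cases x with
    | nil => exact absurd (show false = true from hx) (by decide)
    | cons r rs =>
      have hx' : and (Nat.rec (motive := fun _ => Bool)
        (nthG B r.2.1 (fun t => and (eqM f.1 (orb6 (t.1.div t.2.2) (t.2.1.div t.2.2) r.2.2))
          (eqM f.2 (orb6 (t.1.div t.2.2) (t.2.1.div t.2.2) (cm6 r.2.2)))))
        (fun i _ => and (Nat.ble (Nat.succ r.2.1) cls.length) (and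
          (nthG nxt r.2.1 (fun m => Nat.beq m.1 c₀))
          (nthG rk r.2.1 (fun m => Nat.ble m.1 i)))) r.1)
          (rkA B cls.length nxt rk l rs (Nat.succ c₀)) = true := hx
      rw [Bool.and_eq_true] at hx'
      obtain ⟨h1, h2⟩ := hx'
      cases c with
      | zero =>
        rw [List.getD_cons_zero, List.getD_cons_zero]
        obtain ⟨r1, r2⟩ := r
        cases r1 with
        | zero =>
          rw [if_pos rfl]
          have h3 : nthG B r2.1 (fun t => and
              (eqM f.1 (orb6 (t.1.div t.2.2) (t.2.1.div t.2.2) r2.2))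
              (eqM f.2 (orb6 (t.1.div t.2.2) (t.2.1.div t.2.2) (cm6 r2.2)))) = true := h1
          obtain ⟨h4, h5⟩ := nthG_spec (d := default) h3
          rw [Bool.and_eq_true] at h5
          exact ⟨h4, h5.1, h5.2⟩
        | succ i =>
          rw [if_neg (Nat.succ_ne_zero i)]
          have h3 : and (Nat.ble (Nat.succ r2.1) cls.length) (and
            (nthG nxt r2.1 (fun m => Nat.beq m.1 c₀))
            (nthG rk r2.1 (fun m => Nat.ble m.1 i))) = true := h1
          rw [Bool.and_eq_true, Bool.and_eq_true] at h3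
          obtain ⟨h4, h5, h6⟩ := h3
          have h7 := (nthG_spec (d := default) h5).2
          have h8 := (nthG_spec (d := default) h6).2
          exact ⟨Nat.le_of_ble_eq_true h4, Nat.eq_of_beq_eq_true h7,
            Nat.lt_succ_of_le (Nat.le_of_ble_eq_true h8)⟩
      | succ c =>
        rw [List.getD_cons_succ, List.getD_cons_succ, show c₀ + (c + 1) = Nat.succ c₀ + c by omega]
        exact ih h2 c (by rw [List.length_cons] at hc; omega)

theorem rk_of {B : List (Mo × Mo × Mo)} {cls : List (Mo × Mo)} {nxt : List (ℕ × ℕ)}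
    {rk : List (ℕ × ℕ × ℕ)} {n : ℕ} (hn : cls.length = n)
    (hx : rkA B n nxt rk cls rk 0 = true) : ∀ c < cls.length, rkC B cls nxt rk c = true := by
  intro c hc
  subst hn
  have h := rkA_spec hx c hc
  unfold rkC
  split_ifs at h with h0
  · rw [h0, show Nat.beq 0 0 = true from rfl, cond_true, Bool.and_eq_true, Bool.and_eq_true,
      decide_eq_true_eq]
    exact h
  · have hb : Nat.beq (rk.getD c default).1 0 = false := by
      cases h : Nat.beq (rk.getD c default).1 0
      · rfl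
      · exact absurd (Nat.eq_of_beq_eq_true h) h0
    rw [hb, cond_false, Bool.and_eq_true, Bool.and_eq_true, decide_eq_true_eq, decide_eq_true_eq]
    refine ⟨h.1, ?_, h.2.2⟩
    rw [h.2.1, zero_add]
    exact Nat.beq_refl c

end Pool.Agent.KY
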