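import Pool.Agent.Lib_helper72.KX.Only
import Pool.Agent.Lib_helper87.FAM.S12
import Pool.Agent.Lib_helper87.FAM.T12t

/-!
# A point of order twelve: only the constants, from a modular certificate
-/

set_option autoImplicit false
set_option linter.unusedSectionVars false
set_option linter.unusedVariables false

open scoped TensorProduct WithZero

namespace Pool.Agent.FK4

open Pool.Agent.MK4 WeierstrassCurve.Affine Pool.Agent.KC72
open Pool.Agent.TN (Wt Gen)
open Pool.Agent.UEG (P0)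

section twelve

variable {k : Type*} [Field k] [DecidableEq k] [CharZero k] {W : WeierstrassCurve.Affine k}
  {F : Type*} [Field F] [Algebra k F] {X Y : F}

lemma supp12_72 {t : k} (ht : t ≠ 0) (ht1 : 1 - t ≠ 0)
    (ht2 : 2 * t - 1 ≠ 0) (hv : 2 * t ^ 2 - 2 * t + 1 ≠ 0) (hw : 3 * t ^ 2 - 3 * t + 1 ≠ 0)
    {hb : UE12.bb t ≠ 0} {x y : F}
    (hO : addOrderOf (P0 (UE12.cc t) hb) = 12) (h : Generic (Wt (UE12.bb t) (UE12.cc t)) x y)
    (f : F) :
    Supp (AddSubgroup.zmultiples (P0 (UE12.cc t) hb)) x y f ↔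
      ∃ (c : k) (n : Fin 11 → ℤ), c ≠ 0 ∧ f = algebraMap k F c * ∏ j, UE12B.uF t x y j ^ n j := by
  rw [supp_iff]
  exact UE12B.supp12 ht ht1 ht2 hv hw hO h.toU f

/-- a point of order twelve: only the constants, from a modular certificate -/
theorem only12 (hg : Generic W X Y) {P : W.Point} {t : k} (ht : t ≠ 0) (ht1 : 1 - t ≠ 0)
    (ht2 : 2 * t - 1 ≠ 0) (hv : 2 * t ^ 2 - 2 * t + 1 ≠ 0) (hw : 3 * t ^ 2 - 3 * t + 1 ≠ 0)
    (h12 : To12t t P X Y)
    {R : MC.RCert} (hR : MC.ROk R) {n : ℕ} (hn : R.n = n) (hr : R.r = 11)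
    {cls : List (Mo × Mo)} (hcl : MC.sameC R.cls cls = true) (h11 : 11 ≤ n)
    {B C : k} (hB : UE12.bb t = B) (hC : UE12.cc t = C) {G : F → F → Fin n → F}
    (hG : ∀ (x y : F) (j : Fin 11), G x y (Fin.castLE h11 j) = UE12B.uF t x y j)
    (hk : ∀ (x y : F) (i : Fin n), 11 ≤ i.val → ∃ c : k, G x y i = algebraMap k F c)
    (hne : ∀ {x y : F}, Gen B C x y → ∀ i, G x y i ≠ 0)
    (hc : ∀ {x y : F}, Gen B C x y → ∀ e : Fin n → ℤ, (∀ i : Fin n, i.val < 11 → e i = 0) →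
      ∏ i, G x y i ^ e i = 1 → e = 0)
    (hs : ∀ {x y : F}, Gen B C x y → Sols (List.ofFn (G x y)) cls)
    (hU : ∀ {x y : F}, Gen B C x y → ∀ f : F,
      (∃ (c : k) (n : Fin 11 → ℤ), c ≠ 0 ∧ f = algebraMap k F c * ∏ j, UE12B.uF t x y j ^ n j) →
      (∃ (c : k) (n : Fin 11 → ℤ), c ≠ 0 ∧
        1 - f = algebraMap k F c * ∏ j, UE12B.uF t x y j ^ n j) →
      sy f ∈ SC k F ⊔
        Submodule.span ℚ {a : B2 F | ∃ p ∈ cls, a = sy (ev (List.ofFn (G x y)) p.1)}) :
    ClosedIn (AddSubgroup.zmultiples P) X Y ⊥ := by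
  obtain ⟨hb, x, y, h, hO, hS, htop⟩ := h12
  have hgen : Gen B C x y := by
    have := UE4.of_UEG h.toU
    rwa [hB, hC] at this
  have hs12 := supp12_72 ht ht1 ht2 hv hw hO h
  refine closedIn_bot hg (hS.toSame.onlyConst.mpr ?_)
  refine only_certR hR hn hr hcl (G := G x y) h11 ?_ (hk x y) ?_ (hc hgen) (hs hgen)
    (fun f h1 h2 => hU hgen f ((hs12 f).mp h1) ((hs12 _).mp h2))
  · intro i
    by_cases hi : i.val < 11
    · have e : G x y i = UE12B.uF t x y ⟨i.val, hi⟩ := by rw [← hG]; rfl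
      rw [e]
      rw [hs12]
      refine ⟨1, Pi.single ⟨i.val, hi⟩ 1, one_ne_zero, ?_⟩
      rw [map_one, one_mul, Finset.prod_eq_single (⟨i.val, hi⟩ : Fin 11)]
      · rw [Pi.single_eq_same, zpow_one]
      · intro j _ hj
        rw [Pi.single_eq_of_ne hj, zpow_zero]
      · intro hj; exact absurd (Finset.mem_univ _) hj
    · obtain ⟨c, e⟩ := hk x y i (not_lt.mp hi)
      have hc0 : c ≠ 0 := by
        rintro rfl
        exact hne hgen i (by rw [e, map_zero])
      rw [e]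
      exact supp_const hc0
  · intro e c _ he
    simp only [hG] at he
    exact UE12B.const12 ht ht1 ht2 hv hw hO h.toU he

end twelve

end Pool.Agent.FK4
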