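import Pool.Agent.Lib_helper72.KY.En

/-!
# A point of order twelve: the divisors of the solutions, with finite data
-/

set_option autoImplicit false
set_option linter.unusedSectionVars false
set_option linter.unusedSimpArgs false
set_option linter.unusedVariables false

namespace Pool.Agent.KY

open KC72
open Pool.Agent.K7 (dot pos neg rot mkD)

/-- the data of a curve -/
structure Dat where
  /-- the coefficients of the logarithmic derivatives in terms of the divisor -/
  kap : Fin 13 → Fin 12 → ℤ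
  /-- the exponents of the primes -/
  nus : List (Fin 12 → ℤ)
  /-- the table of solutions -/
  look : List ℤ → List ℤ → Bool

/-- `g'/g` vanishes to order `a - 1` at `-sP` -/
def VanAt (κ : Fin 13 → Fin 12 → ℤ) (D : Fin 12 → ℤ) (s : Fin 12) (a : ℤ) : Prop :=
  ∀ m : Fin 13, 13 - a < ordm m → ∑ c, κ m c * D (c + s) = 0

/-- the exponents of the value at `-sP` -/
def ex0 (ν : Fin 12 → ℤ) (D : Fin 12 → ℤ) (s : Fin 12) : ℤ := ∑ c, ν (c - s) * D c

/-- the conditions on the divisors of `f`, `1 - f` -/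
structure Shp (C : Dat) (D D' : Fin 12 → ℤ) : Prop where
  alt : ∀ s, (D s = 0 ∧ D' s = 0) ∨ (1 ≤ D s ∧ D' s = 0) ∨ (D s = 0 ∧ 1 ≤ D' s) ∨
    (D s = D' s ∧ D s ≤ -1)
  s0 : ∑ s, D s = 0
  s1 : ∑ s, D' s = 0
  w0 : (∑ s : Fin 12, (s.val : ℤ) * D s) % 12 = 0
  w1 : (∑ s : Fin 12, (s.val : ℤ) * D' s) % 12 = 0
  van : ∀ s, 1 ≤ D s → (∃ M : Fin 13, ordm M = 13 - D s) ∧ VanAt C.kap D' s (D s)
  lv : ∀ ν ∈ C.nus, ∀ s s', 1 ≤ D s → 1 ≤ D s' → ex0 ν D' s = ex0 ν D' s'
  lvg : ∀ ν ∈ C.nus, ∀ s s', 1 ≤ D' s → 1 ≤ D' s' → ex0 ν D s = ex0 ν D s'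
  lvp : ∀ ν ∈ C.nus, ∀ s s', D s ≤ -1 → D s' ≤ -1 →
    ex0 ν (fun c => D c - D' c) s = ex0 ν (fun c => D c - D' c) s'
  ne : ∃ s, D' s ≠ 0

/-- the row of a linear form at `-sP` -/
def rowZ (κ : Fin 12 → ℤ) (s : Fin 12) : List ℤ := rot^[12 - s.val] (tl κ)

lemma rowZ_eq (κ : Fin 12 → ℤ) (s : Fin 12) : rowZ κ s = tl (fun c => κ (c - s)) := by
  unfold rowZ
  rw [rot_iter]
  congr 1
  funext i
  congr 1
  have : ∀ s : Fin 12, (12 - s.val) • (1 : Fin 12) = -s := by decide
  rw [this, sub_eq_add_neg]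

lemma dot_rowZ (κ : Fin 12 → ℤ) (s : Fin 12) (D : Fin 12 → ℤ) :
    dot (rowZ κ s) (tl D) = ∑ c, κ c * D (c + s) := by
  rw [rowZ_eq, dot_tl, ← Equiv.sum_comp (Equiv.addRight s) (fun c => κ (c - s) * D c)]
  refine Finset.sum_congr rfl fun c _ => ?_
  show κ (c + s - s) * D (c + s) = _
  rw [add_sub_cancel_right]

lemma dot_rowZ' (κ : Fin 12 → ℤ) (s : Fin 12) (D : Fin 12 → ℤ) :
    dot (rowZ κ s) (tl D) = ex0 κ D s := by
  rw [rowZ_eq, dot_tl]
  rfl

/-- all indices -/
def ix13 : List (Fin 13) := [0, 1, 2, 3, 4, 5, 6, 7, 8, 9, 10, 11, 12]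

/-- all indices -/
def ix12 : List (Fin 12) := [0, 1, 2, 3, 4, 5, 6, 7, 8, 9, 10, 11]

/-- the rows for a zero of order `a` at `-sP` -/
def vR (C : Dat) (a : ℕ) (s : Fin 12) : List (List ℤ) :=
  (ix13.filter (fun m => decide (13 - (a : ℤ) < ordm m))).map (fun m => rowZ (C.kap m) s)

lemma vR_zero {C : Dat} {D' : Fin 12 → ℤ} {s : Fin 12} {a : ℕ} {a' : ℤ}
    (h : VanAt C.kap D' s a') (ha : (a : ℤ) ≤ a') : ∀ r ∈ vR C a s, dot r (tl D') = 0 := by
  intro r hr
  unfold vR at hr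
  rw [List.mem_map] at hr
  obtain ⟨m, hm, rfl⟩ := hr
  rw [List.mem_filter, decide_eq_true_eq] at hm
  rw [dot_rowZ]
  exact h m (by omega)

/-- a unit vector -/
def e8 (d : Fin 12) : List ℤ := tl (fun c => if c = d then 1 else 0)

lemma dot_e8 (d : Fin 12) (D : Fin 12 → ℤ) : dot (e8 d) (tl D) = D d := by
  unfold e8
  rw [dot_tl]
  simp

lemma dot_ones (D : Fin 12 → ℤ) : dot (tl fun _ => 1) (tl D) = ∑ c, D c := by
  rw [dot_tl]
  simp

/-- the difference of two lists -/
def subL : List ℤ → List ℤ → List ℤ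
  | a :: l, b :: m => (a - b) :: subL l m
  | _, _ => []

lemma subL_tl (f g : Fin 12 → ℤ) : subL (tl f) (tl g) = tl (fun c => f c - g c) := rfl

lemma dot_subZ (ν : Fin 12 → ℤ) (s s' : Fin 12) (D : Fin 12 → ℤ) :
    dot (subL (rowZ ν s) (rowZ ν s')) (tl D) = ex0 ν D s - ex0 ν D s' := by
  rw [rowZ_eq, rowZ_eq, subL_tl, dot_tl]
  simp only [sub_mul, Finset.sum_sub_distrib]
  rfl

/-- the rows for the points -/
def rws (C : Dat) : List (Fin 12) → List ℕ → List (List ℤ)
  | p :: ps, a :: as => e8 p :: (C.nus.map (fun ν => subL (rowZ ν 0) (rowZ ν p)) ++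
      (vR C a p ++ rws C ps as))
  | _, _ => []

/-- all rows -/
def Rw (C : Dat) (ps : List (Fin 12)) (as : List ℕ) : List (List ℤ) :=
  (tl fun _ => 1) :: rws C ps as

/-- comparison -/
def leL : List ℕ → List ℕ → Bool
  | [], [] => true
  | a :: l, b :: m => decide (a ≤ b) && leL l m
  | _, _ => false

lemma leL_refl (l : List ℕ) : leL l l = true := by
  induction l with
  | nil => rfl
  | cons a l ih => unfold leL; rw [ih]; simp

lemma rws_zero {C : Dat} {D D' : Fin 12 → ℤ} (H : Shp C D D') (h0 : 1 ≤ D 0)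
    (ps : List (Fin 12)) : ∀ as : List ℕ, (∀ p ∈ ps, 1 ≤ D p) →
      leL as (ps.map fun p => (D p).toNat) = true →
      ∀ r ∈ rws C ps as, dot r (tl D') = 0 := by
  induction ps with
  | nil => intro as _ _ r hr; cases as <;> exact absurd hr (by simp [rws])
  | cons p ps ih =>
    intro as hp hl r hr
    cases as with
    | nil => exact absurd hr (by simp [rws])
    | cons a as =>
      unfold rws at hr
      rw [List.map_cons] at hl
      unfold leL at hl
      rw [Bool.and_eq_true, decide_eq_true_eq] at hl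
      have hpp := hp p List.mem_cons_self
      rw [List.mem_cons, List.mem_append, List.mem_append] at hr
      rcases hr with rfl | hr | hr | hr
      · rw [dot_e8]
        rcases H.alt p with h | h | h | h <;> omega
      · rw [List.mem_map] at hr
        obtain ⟨ν, hν, rfl⟩ := hr
        rw [dot_subZ, H.lv ν hν 0 p h0 hpp, sub_self]
      · exact vR_zero (H.van p hpp).2 (by omega) r hr
      · exact ih as (fun q hq => hp q (List.mem_cons_of_mem _ hq)) hl.2 r hr

lemma Rw_zero {C : Dat} {D D' : Fin 12 → ℤ} (H : Shp C D D') (h0 : 1 ≤ D 0)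
    (ps : List (Fin 12)) (as : List ℕ) (hp : ∀ p ∈ ps, 1 ≤ D p)
    (hl : leL as (ps.map fun p => (D p).toNat) = true) :
    ∀ r ∈ Rw C ps as, dot r (tl D') = 0 := by
  intro r hr
  unfold Rw at hr
  rw [List.mem_cons] at hr
  rcases hr with rfl | hr
  · rw [dot_ones, H.s1]
  · exact rws_zero H h0 ps as hp hl r hr

/-- look up all rotations -/
def lk (look : List ℤ → List ℤ → Bool) : ℕ → List ℤ → List ℤ → Bool
  | 0, _, _ => true
  | j + 1, D, D' => look D D' && lk look j (rot D) (rot D')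

lemma lk_spec (look : List ℤ → List ℤ → Bool) (n : ℕ) : ∀ {D D' : List ℤ},
    lk look n D D' = true → ∀ j < n, look (rot^[j] D) (rot^[j] D') = true := by
  induction n with
  | zero => intro D D' _ j hj; omega
  | succ n ih =>
    intro D D' h j hj
    unfold lk at h
    rw [Bool.and_eq_true] at h
    rcases j with _ | j
    · exact h.1
    · rw [Function.iterate_succ_apply, Function.iterate_succ_apply]
      exact ih h.2 j (by omega)

/-- the weight condition -/
def wtc (l : List ℤ) : Bool := dot [.ofNat 0, .ofNat 1, .ofNat 2, .ofNat 3, .ofNat 4, .ofNat 5,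
  .ofNat 6, .ofNat 7, .ofNat 8, .ofNat 9, .ofNat 10, .ofNat 11] l % .ofNat 12 == .ofNat 0

lemma wtc_of {D : Fin 12 → ℤ} (h : (∑ s : Fin 12, (s.val : ℤ) * D s) % 12 = 0) :
    wtc (tl D) = true := by
  rw [← dot_tl (fun s : Fin 12 => (s.val : ℤ)) D] at h
  unfold wtc
  rw [beq_iff_eq]
  exact h

/-- all elements are equal -/
def same : List ℤ → Bool
  | [] => true
  | a :: l => l.all (fun b => b == a)

lemma same_of {ι : Type*} {l : List ι} {f : ι → ℤ} (h : ∀ a ∈ l, ∀ b ∈ l, f a = f b) :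
    same (l.map f) = true := by
  cases l with
  | nil => rfl
  | cons a l =>
    rw [List.map_cons]
    unfold same
    rw [List.all_eq_true]
    intro x hx
    rw [List.mem_map] at hx
    obtain ⟨b, hb, rfl⟩ := hx
    rw [beq_iff_eq]
    exact h b (List.mem_cons_of_mem _ hb) a List.mem_cons_self

/-- the values at the points with `q` -/
def vls (ν : Fin 12 → ℤ) (q : ℤ → Bool) (A l : List ℤ) : List ℤ :=
  (ix12.filter (fun s => q (A.getD s.val 0))).map (fun s => dot (rowZ ν s) l)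

lemma getD_tl (D : Fin 12 → ℤ) (s : Fin 12) : (tl D).getD s.val 0 = D s := by
  fin_cases s <;> rfl

lemma vls_of {ν : Fin 12 → ℤ} {q : ℤ → Bool} {A D : Fin 12 → ℤ}
    (h : ∀ s s', q (A s) = true → q (A s') = true → ex0 ν D s = ex0 ν D s') :
    same (vls ν q (tl A) (tl D)) = true := by
  unfold vls
  refine same_of fun a ha b hb => ?_
  rw [List.mem_filter, getD_tl] at ha hb
  rw [dot_rowZ', dot_rowZ']
  exact h a b ha.2 hb.2

/-- the conditions on the values -/
def okv (C : Dat) (A B : List ℤ) : Bool :=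
  C.nus.all (fun ν => same (vls ν (fun x => decide (1 ≤ x)) B A) &&
    same (vls ν (fun x => decide (x ≤ -1)) A (subL A B)))

lemma okv_of {C : Dat} {D D' : Fin 12 → ℤ} (H : Shp C D D') : okv C (tl D) (tl D') = true := by
  unfold okv
  rw [List.all_eq_true]
  intro ν hν
  rw [Bool.and_eq_true]
  constructor
  · exact vls_of fun s s' h h' => H.lvg ν hν s s' (of_decide_eq_true h) (of_decide_eq_true h')
  · rw [subL_tl]
    exact vls_of fun s s' h h' => H.lvp ν hν s s' (of_decide_eq_true h) (of_decide_eq_true h')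

/-- the check of a leaf -/
def leaf (C : Dat) (S : Sys) (n : ℕ) (aL : List ℤ) (v : List ℤ) : Bool :=
  !(S.int v) || (!(pos (S.full v) == n) || (!(neg (S.full v) == n) || (!(wtc (S.full v)) ||
    (!(wtc (mkD aL (S.full v))) || (!(okv C (mkD aL (S.full v)) (S.full v)) ||
      lk C.look 12 (mkD aL (S.full v)) (S.full v))))))

/-- the free coordinates are coordinates -/
def frOK (S : Sys) : Bool := decide S.fr.Nodup && S.fr.all (fun f => decide (f < 12))

/-- the multiplicity -/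
def lkp : List (Fin 12) → List ℕ → Fin 12 → ℤ
  | p :: ps, a :: as, s => if s = p then (a : ℤ) else lkp ps as s
  | _, _, _ => 0

lemma lkp_map (g : Fin 12 → ℕ) (ps : List (Fin 12)) (s : Fin 12) :
    lkp ps (ps.map g) s = if s ∈ ps then (g s : ℤ) else 0 := by
  induction ps with
  | nil => rfl
  | cons p ps ih =>
    rw [List.map_cons]
    unfold lkp
    rw [ih]
    by_cases h : s = p
    · subst h
      rw [if_pos rfl, if_pos List.mem_cons_self]
    · rw [if_neg h]
      simp only [List.mem_cons, h, false_or]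

/-- the check of the enumeration -/
def chkE (C : Dat) (ps : List (Fin 12)) (e : List ℕ × Sys) : Bool :=
  e.2.ok (Rw C ps e.1) && (frOK e.2 &&
    enF (leaf C e.2 e.1.sum (tl (lkp ps e.1))) e.2.fr.length e.1.sum e.1.sum [])

lemma chkE_of {C : Dat} {ps : List (Fin 12)} {m : List ℕ} {S : Sys} {n k : ℕ}
    (h1 : S.ok (Rw C ps m) = true) (h2 : frOK S = true) (hn : m.sum = n) (hk : S.fr.length = k)
    (h : enF (leaf C S n (tl (lkp ps m))) k n n [] = true) : chkE C ps (m, S) = true := by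
  unfold chkE
  rw [Bool.and_eq_true, Bool.and_eq_true]
  refine ⟨h1, h2, ?_⟩
  show enF (leaf C S m.sum (tl (lkp ps m))) S.fr.length m.sum m.sum [] = true
  rw [hn, hk]
  exact h

/-- the check of a system without solutions -/
def chkZ (C : Dat) (ps : List (Fin 12)) (e : List ℕ × Sys) : Bool :=
  e.2.ok (Rw C ps e.1) && (e.2.fr == [] && e.2.full [] == [0, 0, 0, 0, 0, 0, 0, 0, 0, 0, 0, 0])

/-- the multiplicities with the first one removed, if it is `v + 1` -/
def stE (v : ℕ) : List ℕ → Option (List ℕ)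
  | [] => none
  | x :: l => bif Nat.beq x (v + 1) then some l else none

/-- the multiplicities with the first one removed, if it is at most `v + 1` -/
def stZ (v : ℕ) : List ℕ → Option (List ℕ)
  | [] => none
  | x :: l => bif Nat.ble x (v + 1) then some l else none

/-- the check of the cover -/
def cvr : ℕ → List (List ℕ) → List (List ℕ) → Bool
  | 0, E, Z => E.any List.isEmpty || Z.any List.isEmpty
  | k + 1, E, Z => Z.any (fun z => Nat.beq z.length (k + 1) && z.all (fun x => Nat.ble x 1)) ||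
      (List.range 13).all (fun v => cvr k (E.filterMap (stE v)) (Z.filterMap (stZ v)))

lemma leL_one : ∀ z m : List ℕ, z.length = m.length → (∀ x ∈ z, x ≤ 1) → (∀ x ∈ m, 1 ≤ x) →
    leL z m = true := by
  intro z
  induction z with
  | nil =>
    intro m hl _ _
    rw [List.length_nil] at hl
    rw [List.length_eq_zero_iff.mp hl.symm]
    rfl
  | cons a z ih =>
    intro m hl hz hm
    cases m with
    | nil => simp at hl
    | cons b m =>
      unfold leL
      rw [Bool.and_eq_true, decide_eq_true_eq]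
      refine ⟨(hz a List.mem_cons_self).trans (hm b List.mem_cons_self), ih m (by simpa using hl)
        (fun x hx => hz x (List.mem_cons_of_mem _ hx))
        (fun x hx => hm x (List.mem_cons_of_mem _ hx))⟩

lemma cvr_spec (k : ℕ) : ∀ E Z : List (List ℕ), cvr k E Z = true → ∀ m : List ℕ,
    m.length = k → (∀ x ∈ m, 1 ≤ x ∧ x ≤ 13) → (∃ z ∈ Z, leL z m = true) ∨ m ∈ E := by
  induction k with
  | zero =>
    intro E Z h m hl _
    rw [List.length_eq_zero_iff.mp hl]
    unfold cvr at h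
    rw [Bool.or_eq_true, List.any_eq_true, List.any_eq_true] at h
    rcases h with ⟨e, he, h⟩ | ⟨z, hz, h⟩
    · right
      rw [List.isEmpty_iff] at h
      rwa [← h]
    · left
      rw [List.isEmpty_iff] at h
      exact ⟨z, hz, by rw [h]; rfl⟩
  | succ k ih =>
    intro E Z h m hl hx
    cases m with
    | nil => simp at hl
    | cons a m =>
      rw [List.length_cons, Nat.add_right_cancel_iff] at hl
      unfold cvr at h
      rw [Bool.or_eq_true, List.any_eq_true, List.all_eq_true] at h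
      rcases h with ⟨z, hz, h⟩ | h
      · left
        rw [Bool.and_eq_true, List.all_eq_true] at h
        refine ⟨z, hz, leL_one z (a :: m) ?_ (fun x hx' => Nat.le_of_ble_eq_true (h.2 x hx'))
          fun x hx' => (hx x hx').1⟩
        rw [Nat.eq_of_beq_eq_true h.1, List.length_cons, hl]
      · have ha := hx a List.mem_cons_self
        have h2 := h (a - 1) (List.mem_range.mpr (by omega))
        rcases ih _ _ h2 m hl (fun x hx' => hx x (List.mem_cons_of_mem _ hx')) with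
          ⟨z, hz, h3⟩ | h3
        · left
          rw [List.mem_filterMap] at hz
          obtain ⟨z', hz', h4⟩ := hz
          cases z' with
          | nil => exact absurd h4 (by simp [stZ])
          | cons b z' =>
            change (bif Nat.ble b (a - 1 + 1) then some z' else none) = some z at h4
            cases h5 : Nat.ble b (a - 1 + 1) with
            | false => rw [h5] at h4; exact absurd h4 (by simp)
            | true =>
              rw [h5, cond_true, Option.some.injEq] at h4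
              refine ⟨b :: z', hz', ?_⟩
              unfold leL
              rw [Bool.and_eq_true, decide_eq_true_eq, h4]
              have := Nat.le_of_ble_eq_true h5
              exact ⟨by omega, h3⟩
        · right
          rw [List.mem_filterMap] at h3
          obtain ⟨z', hz', h4⟩ := h3
          cases z' with
          | nil => exact absurd h4 (by simp [stE])
          | cons b z' =>
            change (bif Nat.beq b (a - 1 + 1) then some z' else none) = some m at h4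
            cases h5 : Nat.beq b (a - 1 + 1) with
            | false => rw [h5] at h4; exact absurd h4 (by simp)
            | true =>
              rw [h5, cond_true, Option.some.injEq] at h4
              have := Nat.eq_of_beq_eq_true h5
              rw [← h4, show a = b by omega]
              exact hz'

/-- **the check of a configuration** -/
structure OkC (C : Dat) (ps : List (Fin 12)) : Prop where
  ok : ∃ E Z : List (List ℕ × Sys), E.all (chkE C ps) = true ∧ Z.all (chkZ C ps) = true ∧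
    cvr ps.length (E.map Prod.fst) (Z.map Prod.fst) = true

lemma pos_reverse (l : List ℤ) : pos l.reverse = pos l := by
  unfold pos
  rw [List.map_reverse, List.sum_reverse]

lemma neg_reverse (l : List ℤ) : neg l.reverse = neg l := by
  unfold neg
  rw [List.map_reverse, List.sum_reverse]

lemma tl_length (D : Fin 12 → ℤ) : (tl D).length = 12 := rfl

/-- the leaf at the solution -/
lemma leaf_of {C : Dat} {S : Sys} {R : List (List ℤ)} {n : ℕ} {aL : List ℤ} {D D' : Fin 12 → ℤ}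
    (hS : S.ok R = true) (hf : frOK S = true)
    (hE : enF (leaf C S n aL) S.fr.length n n [] = true)
    (hR : ∀ r ∈ R, dot r (tl D') = 0) (hp : pos (tl D') = n) (hq : neg (tl D') = n)
    (w1 : wtc (tl D') = true) (w0 : wtc (tl D) = true) (hv : okv C (tl D) (tl D') = true)
    (hm : mkD aL (tl D') = tl D) :
    lk C.look 12 (tl D) (tl D') = true := by
  obtain ⟨h1, h2⟩ := S.full_eq hS (tl_length D') hR
  unfold frOK at hf
  rw [Bool.and_eq_true, decide_eq_true_eq, List.all_eq_true] at hf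
  obtain ⟨p1, p2⟩ := pos_getD_le (tl D') S.fr hf.1 (fun f hf' => by
    have := hf.2 f hf'
    rw [decide_eq_true_eq] at this
    exact this)
  have key := enF_spec _ _ _ _ _ hE (S.fr.map (fun f => (tl D').getD f 0)).reverse (by simp)
    (by rw [pos_reverse, ← hp]; exact p1) (by rw [neg_reverse, ← hq]; exact p2)
  rw [List.reverse_reverse, List.append_nil] at key
  unfold leaf at key
  rw [h1, h2, hp, hq, hm, w1, w0, hv] at key
  simpa using key

/-- the positive and negative parts of the divisor of `1 - f` -/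
lemma parts {C : Dat} {D D' : Fin 12 → ℤ} (H : Shp C D D') {n : ℕ}
    (hn : (n : ℤ) = ∑ s, (if 1 ≤ D s then D s else 0)) :
    pos (tl D') = n ∧ neg (tl D') = n := by
  have key : ∀ s, ((D' s).toNat : ℤ) = D' s - D s + (if 1 ≤ D s then D s else 0) ∧
      ((-(D' s)).toNat : ℤ) = - D s + (if 1 ≤ D s then D s else 0) := by
    intro s
    rcases H.alt s with ⟨h1, h2⟩ | ⟨h1, h2⟩ | ⟨h1, h2⟩ | ⟨h1, h2⟩
    · rw [h1, h2]; simp
    · rw [if_pos h1, h2]; simp
    · rw [h1, if_neg (by norm_num)]; omega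
    · rw [if_neg (by omega)]; omega
  have e0 := H.s0
  have e1 := H.s1
  rw [sum12] at e0 e1 hn
  have k0 := key 0
  have k1 := key 1
  have k2 := key 2
  have k3 := key 3
  have k4 := key 4
  have k5 := key 5
  have k6 := key 6
  have k7 := key 7
  have k8 := key 8
  have k9 := key 9
  have k10 := key 10
  have k11 := key 11
  have p1 : pos (tl D') = (D' 0).toNat + ((D' 1).toNat + ((D' 2).toNat +
      ((D' 3).toNat + ((D' 4).toNat + ((D' 5).toNat + ((D' 6).toNat + ((D' 7).toNat +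
      ((D' 8).toNat + ((D' 9).toNat + ((D' 10).toNat + ((D' 11).toNat + 0))))))))))) := rfl
  have p2 : neg (tl D') = (-(D' 0)).toNat + ((-(D' 1)).toNat + ((-(D' 2)).toNat +
      ((-(D' 3)).toNat + ((-(D' 4)).toNat + ((-(D' 5)).toNat + ((-(D' 6)).toNat +
      ((-(D' 7)).toNat + ((-(D' 8)).toNat + ((-(D' 9)).toNat +
      ((-(D' 10)).toNat + ((-(D' 11)).toNat + 0))))))))))) := rfl
  rw [p1, p2]
  constructor <;> zify <;> linarith [k0.1, k0.2, k1.1, k1.2, k2.1, k2.2, k3.1, k3.2, k4.1, k4.2,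
    k5.1, k5.2, k6.1, k6.2, k7.1, k7.2, k8.1, k8.2, k9.1, k9.2, k10.1, k10.2,
    k11.1, k11.2]

/-- **a configuration**: the solutions with zeros at `ps` are in the table -/
theorem combC {C : Dat} {D D' : Fin 12 → ℤ} (H : Shp C D D') {ps : List (Fin 12)}
    (hnd : ps.Nodup) (h0 : 1 ≤ D 0) (hps : ∀ s, 1 ≤ D s ↔ s ∈ ps)
    (hC : OkC C ps) : lk C.look 12 (tl D) (tl D') = true := by
  obtain ⟨E, Z, hE, hZ, hcov⟩ := hC
  rw [List.all_eq_true] at hE hZ
  have hp : ∀ p ∈ ps, 1 ≤ D p := fun p hp => (hps p).mpr hp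
  have hm := cvr_spec _ _ _ hcov (ps.map fun p => (D p).toNat) (by simp) (by
    intro x hx
    rw [List.mem_map] at hx
    obtain ⟨p, hp', rfl⟩ := hx
    have h1 := hp p hp'
    obtain ⟨⟨M, hM⟩, -⟩ := H.van p h1
    have : ∀ M : Fin 13, 0 ≤ ordm M := by decide
    have := this M
    omega)
  rcases hm with ⟨z', hz', hl⟩ | hm
  · exfalso
    rw [List.mem_map] at hz'
    obtain ⟨z, hz, rfl⟩ := hz'
    have hc := hZ z hz
    unfold chkZ at hc
    rw [Bool.and_eq_true, Bool.and_eq_true, beq_iff_eq, beq_iff_eq] at hc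
    obtain ⟨k1, k2⟩ := Sys.full_eq hc.1 (tl_length D') (Rw_zero H h0 ps z.1 hp hl)
    rw [hc.2.1, List.map_nil, hc.2.2] at k1
    obtain ⟨s, hs⟩ := H.ne
    exact hs (tl_inj (D := fun _ => 0) (D' := D') k1 s).symm
  · rw [List.mem_map] at hm
    obtain ⟨e, he, hm⟩ := hm
    have hc := hE e he
    unfold chkE at hc
    rw [Bool.and_eq_true, Bool.and_eq_true] at hc
    have hf : ∀ s, (if 1 ≤ D s then D s else 0) = if s ∈ ps then ((D s).toNat : ℤ) else 0 := by
      intro s
      by_cases h : 1 ≤ D s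
      · rw [if_pos h, if_pos ((hps s).mp h)]; omega
      · rw [if_neg h, if_neg (fun h' => h ((hps s).mpr h'))]
    obtain ⟨p1, p2⟩ := parts H (n := e.1.sum) (by
      simp only [hf]
      rw [hm, ← Finset.sum_filter]
      have h2 : (Finset.univ.filter fun s => s ∈ ps) = ps.toFinset := by
        ext s; simp
      rw [h2, ← List.sum_toFinset _ hnd, Nat.cast_sum])
    refine leaf_of hc.1 hc.2.1 hc.2.2
      (Rw_zero H h0 ps e.1 hp (by rw [hm]; exact leL_refl _)) p1 p2
      (wtc_of H.w1) (wtc_of H.w0) (okv_of H) ?_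
    refine mkD_tl _ D D' ?_
    intro s
    rw [hm, lkp_map]
    rw [← hf]
    rcases H.alt s with ⟨h1, h2⟩ | ⟨h1, h2⟩ | ⟨h1, h2⟩ | ⟨h1, h2⟩
    · rw [if_neg (by omega), if_neg (by omega), h1]
    · rw [if_neg (by omega), if_pos h1]
    · rw [if_neg (by omega), if_neg (by omega), h1]
    · rw [if_pos (by omega), h1]

/-! ### the linear forms -/

lemma nz_key {κ : Fin 12 → ℤ} {al : Fin 12 → ℤ} {A : ℤ}
    (hk : ∀ i, κ (i - 1) + κ (i + 1) - 2 * κ i = 24 * al i - 2 * A) (e : Fin 12 → ℤ) :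
    24 * ∑ i, al i * e i = ∑ c, κ c * OO e c + 2 * A * ∑ i, e i := by
  rw [sum_OO_mul]
  simp only [hk]
  rw [Finset.mul_sum, Finset.mul_sum, ← Finset.sum_add_distrib]
  exact Finset.sum_congr rfl fun i _ => by ring

lemma nz_at {κ : Fin 12 → ℤ} {al : Fin 12 → ℤ} {A : ℤ}
    (hk : ∀ i, κ (i - 1) + κ (i + 1) - 2 * κ i = 24 * al i - 2 * A) (e : Fin 12 → ℤ) (s : Fin 12) :
    24 * ∑ i, al i * e (i + s) = ex0 κ (OO e) s + 2 * A * ∑ i, e i := by
  have h := nz_key hk (fun i => e (i + s))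
  rw [h]
  congr 1
  · unfold ex0
    rw [← Equiv.sum_comp (Equiv.addRight s) (fun c => κ (c - s) * OO e c)]
    refine Finset.sum_congr rfl fun c _ => ?_
    show κ c * OO (fun i => e (i + s)) c = κ (c + s - s) * OO e (c + s)
    rw [add_sub_cancel_right, OO_shift]
  · congr 1
    exact Equiv.sum_comp (Equiv.addRight s) e

lemma kz_key {κ : Fin 13 → Fin 12 → ℤ} {rz : Fin 11 → Fin 13 → ℤ}
    (hk : ∀ m i, 12 * ∑ j, ex i j * rz j m = κ m (i - 1) + κ m (i + 1) - 2 * κ m i)
    (m : Fin 13) (e : Fin 12 → ℤ) : 12 * ∑ j, NN e j * rz j m = ∑ c, κ m c * OO e c := by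
  rw [sum_OO_mul]
  simp only [← hk]
  unfold NN
  rw [Finset.mul_sum]
  rw [show (∑ j, 12 * ((∑ i, e i * ex i j) * rz j m)) =
    ∑ j, ∑ i, e i * (12 * (ex i j * rz j m)) from Finset.sum_congr rfl fun j _ => by
      rw [Finset.sum_mul, Finset.mul_sum]
      exact Finset.sum_congr rfl fun i _ => by ring, Finset.sum_comm]
  refine Finset.sum_congr rfl fun i _ => ?_
  rw [Finset.mul_sum, Finset.mul_sum]

/-! ### values -/

section

variable {k : Type*} [Field k]

lemma two_three [CharZero k] {a b : ℤ} (h : (2 : k) ^ a * 3 ^ b = 1) : a = 0 ∧ b = 0 := by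
  have hq : (2 : ℚ) ^ a * 3 ^ b = 1 := by
    have h2 : ((((2 : ℚ) ^ a * 3 ^ b : ℚ)) : k) = ((1 : ℚ) : k) := by
      push_cast
      exact h
    exact_mod_cast h2
  have v2 := congrArg (padicValRat 2) hq
  have v3 := congrArg (padicValRat 3) hq
  haveI : Fact (Nat.Prime 2) := ⟨Nat.prime_two⟩
  haveI : Fact (Nat.Prime 3) := ⟨Nat.prime_three⟩
  have a2 : (2 : ℚ) ^ a ≠ 0 := zpow_ne_zero _ two_ne_zero
  have a3 : (3 : ℚ) ^ b ≠ 0 := zpow_ne_zero _ three_ne_zero
  have c1 : padicValRat 2 (2 : ℚ) = 1 := by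
    have := padicValRat.self (p := 2) (by norm_num)
    exact_mod_cast this
  have c2 : padicValRat 3 (3 : ℚ) = 1 := by
    have := padicValRat.self (p := 3) (by norm_num)
    exact_mod_cast this
  have c3 : padicValRat 2 (3 : ℚ) = 0 := by
    have : padicValRat 2 ((3 : ℕ) : ℚ) = 0 := by
      rw [padicValRat.of_nat, padicValNat.eq_zero_of_not_dvd (by norm_num)]; rfl
    exact_mod_cast this
  have c4 : padicValRat 3 (2 : ℚ) = 0 := by
    have : padicValRat 3 ((2 : ℕ) : ℚ) = 0 := by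
      rw [padicValRat.of_nat, padicValNat.eq_zero_of_not_dvd (by norm_num)]; rfl
    exact_mod_cast this
  rw [padicValRat.mul a2 a3, padicValRat.zpow, padicValRat.zpow, c1, c3,
    padicValRat.one] at v2
  rw [padicValRat.mul a2 a3, padicValRat.zpow, padicValRat.zpow, c4, c2,
    padicValRat.one] at v3
  constructor <;> linarith

/-- a product of signed powers of `2`, `3` -/
lemma prod_sq [CharZero k] (sg : Fin 12 → Bool) (al be e : Fin 12 → ℤ) :
    (∏ i, ((bif sg i then -1 else 1) * 2 ^ al i * 3 ^ be i : k) ^ e i) ^ 2 =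
      2 ^ (2 * ∑ i, al i * e i) * 3 ^ (2 * ∑ i, be i * e i) := by
  have h : ∀ s : Finset (Fin 12),
      (∏ i ∈ s, ((bif sg i then -1 else 1) * 2 ^ al i * 3 ^ be i : k) ^ e i) ^ 2 =
      2 ^ (2 * ∑ i ∈ s, al i * e i) * 3 ^ (2 * ∑ i ∈ s, be i * e i) := by
    intro s
    classical
    induction s using Finset.induction_on with
    | empty => simp
    | insert i s hi ih =>
      rw [Finset.prod_insert hi, Finset.sum_insert hi, Finset.sum_insert hi, mul_pow, ih, mul_add,
        mul_add, zpow_add₀ two_ne_zero, zpow_add₀ three_ne_zero]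
      have h1 : (((bif sg i then -1 else 1) * 2 ^ al i * 3 ^ be i : k) ^ e i) ^ 2 =
          2 ^ (2 * (al i * e i)) * 3 ^ (2 * (be i * e i)) := by
        have s1 : ((bif sg i then -1 else 1 : k) ^ e i) ^ 2 = 1 := by
          rw [← zpow_natCast, ← zpow_mul, mul_comm, zpow_mul, zpow_natCast]
          cases sg i <;> simp
        rw [mul_zpow, mul_zpow, mul_pow, mul_pow, s1, one_mul, ← zpow_mul, ← zpow_mul,
          ← zpow_natCast, ← zpow_natCast, ← zpow_mul, ← zpow_mul, mul_comm _ ((2 : ℕ) : ℤ),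
          mul_comm _ ((2 : ℕ) : ℤ)]
        norm_num
      rw [h1]
      ring
  exact h _

/-- equal values give equal exponents -/
lemma exp_eq [CharZero k] (sg : Fin 12 → Bool) (al be : Fin 12 → ℤ) {c v : k} (hc : c ≠ 0)
    {e : Fin 12 → ℤ} {s s' : Fin 12}
    (h : c * ∏ i, ((bif sg i then -1 else 1) * 2 ^ al i * 3 ^ be i : k) ^ e (i + s) = v)
    (h' : c * ∏ i, ((bif sg i then -1 else 1) * 2 ^ al i * 3 ^ be i : k) ^ e (i + s') = v) :
    ∑ i, al i * e (i + s) = ∑ i, al i * e (i + s') ∧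
    ∑ i, be i * e (i + s) = ∑ i, be i * e (i + s') := by
  have h2 := mul_left_cancel₀ hc (h.trans h'.symm)
  have h3 := congrArg (fun z => z ^ 2) h2
  beta_reduce at h3
  rw [prod_sq sg al be (fun i => e (i + s)), prod_sq sg al be (fun i => e (i + s'))] at h3
  have n2 : ∀ a : ℤ, (2 : k) ^ a ≠ 0 := fun a => zpow_ne_zero _ two_ne_zero
  have n3 : ∀ a : ℤ, (3 : k) ^ a ≠ 0 := fun a => zpow_ne_zero _ three_ne_zero
  have h4 : (2 : k) ^ (2 * ∑ i, al i * e (i + s) - 2 * ∑ i, al i * e (i + s')) *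
      3 ^ (2 * ∑ i, be i * e (i + s) - 2 * ∑ i, be i * e (i + s')) = 1 := by
    rw [zpow_sub₀ two_ne_zero, zpow_sub₀ three_ne_zero, div_mul_div_comm, h3,
      div_self (mul_ne_zero (n2 _) (n3 _))]
  obtain ⟨a1, a2⟩ := two_three h4
  constructor <;> omega

end

lemma val_smul : ∀ s : Fin 12, s.val • (1 : Fin 12) = s := by decide

/-- the configurations of at most four points -/
def confs : List (List (Fin 12)) :=
  [[0], [0, 1], [0, 2], [0, 3], [0, 4], [0, 5], [0, 6], [0, 1, 2], [0, 1, 3], [0, 1, 4],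
    [0, 1, 5], [0, 1, 6], [0, 1, 7], [0, 1, 8], [0, 1, 9], [0, 1, 10], [0, 2, 4], [0, 2, 5],
    [0, 2, 6], [0, 2, 7], [0, 2, 8], [0, 2, 9], [0, 3, 6], [0, 3, 7], [0, 3, 8], [0, 4, 8],
    [0, 1, 2, 3], [0, 1, 2, 4], [0, 1, 2, 5], [0, 1, 2, 6], [0, 1, 2, 7], [0, 1, 2, 8],
    [0, 1, 2, 9], [0, 1, 2, 10], [0, 1, 3, 4], [0, 1, 3, 5], [0, 1, 3, 6], [0, 1, 3, 7],
    [0, 1, 3, 8], [0, 1, 3, 9], [0, 1, 3, 10], [0, 1, 4, 5], [0, 1, 4, 6], [0, 1, 4, 7],
    [0, 1, 4, 8], [0, 1, 4, 9], [0, 1, 4, 10], [0, 1, 5, 6], [0, 1, 5, 7], [0, 1, 5, 8],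
    [0, 1, 5, 9], [0, 1, 5, 10], [0, 1, 6, 7], [0, 1, 6, 8], [0, 1, 6, 9], [0, 1, 6, 10],
    [0, 1, 7, 9], [0, 1, 7, 10], [0, 1, 8, 10], [0, 2, 4, 6], [0, 2, 4, 7], [0, 2, 4, 8],
    [0, 2, 4, 9], [0, 2, 5, 7], [0, 2, 5, 8], [0, 2, 5, 9], [0, 2, 6, 8], [0, 2, 6, 9],
    [0, 3, 6, 9]]

/-- the normal forms of the quadruples: the configuration and the shift -/
def nfT : List (List (List (ℕ × ℕ))) :=
  [[[(0, 0), (1, 0), (2, 0), (3, 0), (4, 0), (5, 0), (6, 0), (5, 7), (4, 8), (3, 9), (2, 10), (1, 11)],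
    [(1, 0), (1, 0), (7, 0), (8, 0), (9, 0), (10, 0), (11, 0), (12, 0), (13, 0), (14, 0), (15, 0), (7, 11)],
    [(2, 0), (7, 0), (2, 0), (15, 2), (16, 0), (17, 0), (18, 0), (19, 0), (20, 0), (21, 0), (16, 10), (8, 11)],
    [(3, 0), (8, 0), (15, 2), (3, 0), (14, 3), (21, 3), (22, 0), (23, 0), (24, 0), (22, 9), (17, 10), (9, 11)],
    [(4, 0), (9, 0), (16, 0), (14, 3), (4, 0), (13, 4), (20, 4), (24, 4), (25, 0), (23, 9), (18, 10), (10, 11)],
    [(5, 0), (10, 0), (17, 0), (21, 3), (13, 4), (5, 0), (12, 5), (19, 5), (23, 5), (24, 9), (19, 10), (11, 11)],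
    [(6, 0), (11, 0), (18, 0), (22, 0), (20, 4), (12, 5), (6, 0), (11, 6), (18, 6), (22, 6), (20, 10), (12, 11)],
    [(5, 7), (12, 0), (19, 0), (23, 0), (24, 4), (19, 5), (11, 6), (5, 7), (10, 7), (17, 7), (21, 10), (13, 11)],
    [(4, 8), (13, 0), (20, 0), (24, 0), (25, 0), (23, 5), (18, 6), (10, 7), (4, 8), (9, 8), (16, 8), (14, 11)],
    [(3, 9), (14, 0), (21, 0), (22, 9), (23, 9), (24, 9), (22, 6), (17, 7), (9, 8), (3, 9), (8, 9), (15, 11)],
    [(2, 10), (15, 0), (16, 10), (17, 10), (18, 10), (19, 10), (20, 10), (21, 10), (16, 8), (8, 9), (2, 10), (7, 10)],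
    [(1, 11), (7, 11), (8, 11), (9, 11), (10, 11), (11, 11), (12, 11), (13, 11), (14, 11), (15, 11), (7, 10), (1, 11)]],
   [[(1, 0), (1, 0), (7, 0), (8, 0), (9, 0), (10, 0), (11, 0), (12, 0), (13, 0), (14, 0), (15, 0), (7, 11)],
    [(1, 0), (1, 0), (7, 0), (8, 0), (9, 0), (10, 0), (11, 0), (12, 0), (13, 0), (14, 0), (15, 0), (7, 11)],
    [(7, 0), (7, 0), (7, 0), (26, 0), (27, 0), (28, 0), (29, 0), (30, 0), (31, 0), (32, 0), (33, 0), (26, 11)],
    [(8, 0), (8, 0), (26, 0), (8, 0), (34, 0), (35, 0), (36, 0), (37, 0), (38, 0), (39, 0), (40, 0), (27, 11)],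
    [(9, 0), (9, 0), (27, 0), (34, 0), (9, 0), (41, 0), (42, 0), (43, 0), (44, 0), (45, 0), (46, 0), (28, 11)],
    [(10, 0), (10, 0), (28, 0), (35, 0), (41, 0), (10, 0), (47, 0), (48, 0), (49, 0), (50, 0), (51, 0), (29, 11)],
    [(11, 0), (11, 0), (29, 0), (36, 0), (42, 0), (47, 0), (11, 0), (52, 0), (53, 0), (54, 0), (55, 0), (30, 11)],
    [(12, 0), (12, 0), (30, 0), (37, 0), (43, 0), (48, 0), (52, 0), (12, 0), (47, 7), (56, 0), (57, 0), (31, 11)],
    [(13, 0), (13, 0), (31, 0), (38, 0), (44, 0), (49, 0), (53, 0), (47, 7), (13, 0), (41, 8), (58, 0), (32, 11)],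
    [(14, 0), (14, 0), (32, 0), (39, 0), (45, 0), (50, 0), (54, 0), (56, 0), (41, 8), (14, 0), (34, 9), (33, 11)],
    [(15, 0), (15, 0), (33, 0), (40, 0), (46, 0), (51, 0), (55, 0), (57, 0), (58, 0), (34, 9), (15, 0), (26, 10)],
    [(7, 11), (7, 11), (26, 11), (27, 11), (28, 11), (29, 11), (30, 11), (31, 11), (32, 11), (33, 11), (26, 10), (7, 11)]],
   [[(2, 0), (7, 0), (2, 0), (15, 2), (16, 0), (17, 0), (18, 0), (19, 0), (20, 0), (21, 0), (16, 10), (8, 11)],
    [(7, 0), (7, 0), (7, 0), (26, 0), (27, 0), (28, 0), (29, 0), (30, 0), (31, 0), (32, 0), (33, 0), (26, 11)],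
    [(2, 0), (7, 0), (2, 0), (15, 2), (16, 0), (17, 0), (18, 0), (19, 0), (20, 0), (21, 0), (16, 10), (8, 11)],
    [(15, 2), (26, 0), (15, 2), (15, 2), (33, 2), (40, 2), (46, 2), (51, 2), (55, 2), (57, 2), (58, 2), (34, 11)],
    [(16, 0), (27, 0), (16, 0), (33, 2), (16, 0), (58, 4), (59, 0), (60, 0), (61, 0), (62, 0), (59, 10), (35, 11)],
    [(17, 0), (28, 0), (17, 0), (40, 2), (58, 4), (17, 0), (56, 5), (63, 0), (64, 0), (65, 0), (60, 10), (36, 11)],
    [(18, 0), (29, 0), (18, 0), (46, 2), (59, 0), (56, 5), (18, 0), (53, 6), (66, 0), (67, 0), (61, 10), (37, 11)],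
    [(19, 0), (30, 0), (19, 0), (51, 2), (60, 0), (63, 0), (53, 6), (19, 0), (48, 7), (63, 7), (62, 10), (38, 11)],
    [(20, 0), (31, 0), (20, 0), (55, 2), (61, 0), (64, 0), (66, 0), (48, 7), (20, 0), (42, 8), (59, 8), (39, 11)],
    [(21, 0), (32, 0), (21, 0), (57, 2), (62, 0), (65, 0), (67, 0), (63, 7), (42, 8), (21, 0), (35, 9), (40, 11)],
    [(16, 10), (33, 0), (16, 10), (58, 2), (59, 10), (60, 10), (61, 10), (62, 10), (59, 8), (35, 9), (16, 10), (27, 10)],
    [(8, 11), (26, 11), (8, 11), (34, 11), (35, 11), (36, 11), (37, 11), (38, 11), (39, 11), (40, 11), (27, 10), (8, 11)]],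
   [[(3, 0), (8, 0), (15, 2), (3, 0), (14, 3), (21, 3), (22, 0), (23, 0), (24, 0), (22, 9), (17, 10), (9, 11)],
    [(8, 0), (8, 0), (26, 0), (8, 0), (34, 0), (35, 0), (36, 0), (37, 0), (38, 0), (39, 0), (40, 0), (27, 11)],
    [(15, 2), (26, 0), (15, 2), (15, 2), (33, 2), (40, 2), (46, 2), (51, 2), (55, 2), (57, 2), (58, 2), (34, 11)],
    [(3, 0), (8, 0), (15, 2), (3, 0), (14, 3), (21, 3), (22, 0), (23, 0), (24, 0), (22, 9), (17, 10), (9, 11)],
    [(14, 3), (34, 0), (33, 2), (14, 3), (14, 3), (32, 3), (39, 3), (45, 3), (50, 3), (54, 3), (56, 3), (41, 11)],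
    [(21, 3), (35, 0), (40, 2), (21, 3), (32, 3), (21, 3), (57, 5), (62, 3), (65, 3), (67, 3), (63, 10), (42, 11)],
    [(22, 0), (36, 0), (46, 2), (22, 0), (39, 3), (57, 5), (22, 0), (54, 6), (67, 6), (68, 0), (64, 10), (43, 11)],
    [(23, 0), (37, 0), (51, 2), (23, 0), (45, 3), (62, 3), (54, 6), (23, 0), (49, 7), (64, 7), (65, 10), (44, 11)],
    [(24, 0), (38, 0), (55, 2), (24, 0), (50, 3), (65, 3), (67, 6), (49, 7), (24, 0), (43, 8), (60, 8), (45, 11)],
    [(22, 9), (39, 0), (57, 2), (22, 9), (54, 3), (67, 3), (68, 0), (64, 7), (43, 8), (22, 9), (36, 9), (46, 11)],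
    [(17, 10), (40, 0), (58, 2), (17, 10), (56, 3), (63, 10), (64, 10), (65, 10), (60, 8), (36, 9), (17, 10), (28, 10)],
    [(9, 11), (27, 11), (34, 11), (9, 11), (41, 11), (42, 11), (43, 11), (44, 11), (45, 11), (46, 11), (28, 10), (9, 11)]],
   [[(4, 0), (9, 0), (16, 0), (14, 3), (4, 0), (13, 4), (20, 4), (24, 4), (25, 0), (23, 9), (18, 10), (10, 11)],
    [(9, 0), (9, 0), (27, 0), (34, 0), (9, 0), (41, 0), (42, 0), (43, 0), (44, 0), (45, 0), (46, 0), (28, 11)],
    [(16, 0), (27, 0), (16, 0), (33, 2), (16, 0), (58, 4), (59, 0), (60, 0), (61, 0), (62, 0), (59, 10), (35, 11)],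
    [(14, 3), (34, 0), (33, 2), (14, 3), (14, 3), (32, 3), (39, 3), (45, 3), (50, 3), (54, 3), (56, 3), (41, 11)],
    [(4, 0), (9, 0), (16, 0), (14, 3), (4, 0), (13, 4), (20, 4), (24, 4), (25, 0), (23, 9), (18, 10), (10, 11)],
    [(13, 4), (41, 0), (58, 4), (32, 3), (13, 4), (13, 4), (31, 4), (38, 4), (44, 4), (49, 4), (53, 4), (47, 11)],
    [(20, 4), (42, 0), (59, 0), (39, 3), (20, 4), (31, 4), (20, 4), (55, 6), (61, 4), (64, 4), (66, 4), (48, 11)],
    [(24, 4), (43, 0), (60, 0), (45, 3), (24, 4), (38, 4), (55, 6), (24, 4), (50, 7), (65, 7), (67, 10), (49, 11)],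
    [(25, 0), (44, 0), (61, 0), (50, 3), (25, 0), (44, 4), (61, 4), (50, 7), (25, 0), (44, 8), (61, 8), (50, 11)],
    [(23, 9), (45, 0), (62, 0), (54, 3), (23, 9), (49, 4), (64, 4), (65, 7), (44, 8), (23, 9), (37, 9), (51, 11)],
    [(18, 10), (46, 0), (59, 10), (56, 3), (18, 10), (53, 4), (66, 4), (67, 10), (61, 8), (37, 9), (18, 10), (29, 10)],
    [(10, 11), (28, 11), (35, 11), (41, 11), (10, 11), (47, 11), (48, 11), (49, 11), (50, 11), (51, 11), (29, 10), (10, 11)]],
   [[(5, 0), (10, 0), (17, 0), (21, 3), (13, 4), (5, 0), (12, 5), (19, 5), (23, 5), (24, 9), (19, 10), (11, 11)],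
    [(10, 0), (10, 0), (28, 0), (35, 0), (41, 0), (10, 0), (47, 0), (48, 0), (49, 0), (50, 0), (51, 0), (29, 11)],
    [(17, 0), (28, 0), (17, 0), (40, 2), (58, 4), (17, 0), (56, 5), (63, 0), (64, 0), (65, 0), (60, 10), (36, 11)],
    [(21, 3), (35, 0), (40, 2), (21, 3), (32, 3), (21, 3), (57, 5), (62, 3), (65, 3), (67, 3), (63, 10), (42, 11)],
    [(13, 4), (41, 0), (58, 4), (32, 3), (13, 4), (13, 4), (31, 4), (38, 4), (44, 4), (49, 4), (53, 4), (47, 11)],
    [(5, 0), (10, 0), (17, 0), (21, 3), (13, 4), (5, 0), (12, 5), (19, 5), (23, 5), (24, 9), (19, 10), (11, 11)],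
    [(12, 5), (47, 0), (56, 5), (57, 5), (31, 4), (12, 5), (12, 5), (30, 5), (37, 5), (43, 5), (48, 5), (52, 5)],
    [(19, 5), (48, 0), (63, 0), (62, 3), (38, 4), (19, 5), (30, 5), (19, 5), (51, 7), (60, 5), (63, 5), (53, 11)],
    [(23, 5), (49, 0), (64, 0), (65, 3), (44, 4), (23, 5), (37, 5), (51, 7), (23, 5), (45, 8), (62, 8), (54, 11)],
    [(24, 9), (50, 0), (65, 0), (67, 3), (49, 4), (24, 9), (43, 5), (60, 5), (45, 8), (24, 9), (38, 9), (55, 11)],
    [(19, 10), (51, 0), (60, 10), (63, 10), (53, 4), (19, 10), (48, 5), (63, 5), (62, 8), (38, 9), (19, 10), (30, 10)],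
    [(11, 11), (29, 11), (36, 11), (42, 11), (47, 11), (11, 11), (52, 5), (53, 11), (54, 11), (55, 11), (30, 10), (11, 11)]],
   [[(6, 0), (11, 0), (18, 0), (22, 0), (20, 4), (12, 5), (6, 0), (11, 6), (18, 6), (22, 6), (20, 10), (12, 11)],
    [(11, 0), (11, 0), (29, 0), (36, 0), (42, 0), (47, 0), (11, 0), (52, 0), (53, 0), (54, 0), (55, 0), (30, 11)],
    [(18, 0), (29, 0), (18, 0), (46, 2), (59, 0), (56, 5), (18, 0), (53, 6), (66, 0), (67, 0), (61, 10), (37, 11)],
    [(22, 0), (36, 0), (46, 2), (22, 0), (39, 3), (57, 5), (22, 0), (54, 6), (67, 6), (68, 0), (64, 10), (43, 11)],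
    [(20, 4), (42, 0), (59, 0), (39, 3), (20, 4), (31, 4), (20, 4), (55, 6), (61, 4), (64, 4), (66, 4), (48, 11)],
    [(12, 5), (47, 0), (56, 5), (57, 5), (31, 4), (12, 5), (12, 5), (30, 5), (37, 5), (43, 5), (48, 5), (52, 5)],
    [(6, 0), (11, 0), (18, 0), (22, 0), (20, 4), (12, 5), (6, 0), (11, 6), (18, 6), (22, 6), (20, 10), (12, 11)],
    [(11, 6), (52, 0), (53, 6), (54, 6), (55, 6), (30, 5), (11, 6), (11, 6), (29, 6), (36, 6), (42, 6), (47, 6)],
    [(18, 6), (53, 0), (66, 0), (67, 6), (61, 4), (37, 5), (18, 6), (29, 6), (18, 6), (46, 8), (59, 6), (56, 11)],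
    [(22, 6), (54, 0), (67, 0), (68, 0), (64, 4), (43, 5), (22, 6), (36, 6), (46, 8), (22, 6), (39, 9), (57, 11)],
    [(20, 10), (55, 0), (61, 10), (64, 10), (66, 4), (48, 5), (20, 10), (42, 6), (59, 6), (39, 9), (20, 10), (31, 10)],
    [(12, 11), (30, 11), (37, 11), (43, 11), (48, 11), (52, 5), (12, 11), (47, 6), (56, 11), (57, 11), (31, 10), (12, 11)]],
   [[(5, 7), (12, 0), (19, 0), (23, 0), (24, 4), (19, 5), (11, 6), (5, 7), (10, 7), (17, 7), (21, 10), (13, 11)],
    [(12, 0), (12, 0), (30, 0), (37, 0), (43, 0), (48, 0), (52, 0), (12, 0), (47, 7), (56, 0), (57, 0), (31, 11)],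
    [(19, 0), (30, 0), (19, 0), (51, 2), (60, 0), (63, 0), (53, 6), (19, 0), (48, 7), (63, 7), (62, 10), (38, 11)],
    [(23, 0), (37, 0), (51, 2), (23, 0), (45, 3), (62, 3), (54, 6), (23, 0), (49, 7), (64, 7), (65, 10), (44, 11)],
    [(24, 4), (43, 0), (60, 0), (45, 3), (24, 4), (38, 4), (55, 6), (24, 4), (50, 7), (65, 7), (67, 10), (49, 11)],
    [(19, 5), (48, 0), (63, 0), (62, 3), (38, 4), (19, 5), (30, 5), (19, 5), (51, 7), (60, 5), (63, 5), (53, 11)],
    [(11, 6), (52, 0), (53, 6), (54, 6), (55, 6), (30, 5), (11, 6), (11, 6), (29, 6), (36, 6), (42, 6), (47, 6)],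
    [(5, 7), (12, 0), (19, 0), (23, 0), (24, 4), (19, 5), (11, 6), (5, 7), (10, 7), (17, 7), (21, 10), (13, 11)],
    [(10, 7), (47, 7), (48, 7), (49, 7), (50, 7), (51, 7), (29, 6), (10, 7), (10, 7), (28, 7), (35, 7), (41, 7)],
    [(17, 7), (56, 0), (63, 7), (64, 7), (65, 7), (60, 5), (36, 6), (17, 7), (28, 7), (17, 7), (40, 9), (58, 11)],
    [(21, 10), (57, 0), (62, 10), (65, 10), (67, 10), (63, 5), (42, 6), (21, 10), (35, 7), (40, 9), (21, 10), (32, 10)],
    [(13, 11), (31, 11), (38, 11), (44, 11), (49, 11), (53, 11), (47, 6), (13, 11), (41, 7), (58, 11), (32, 10), (13, 11)]],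
   [[(4, 8), (13, 0), (20, 0), (24, 0), (25, 0), (23, 5), (18, 6), (10, 7), (4, 8), (9, 8), (16, 8), (14, 11)],
    [(13, 0), (13, 0), (31, 0), (38, 0), (44, 0), (49, 0), (53, 0), (47, 7), (13, 0), (41, 8), (58, 0), (32, 11)],
    [(20, 0), (31, 0), (20, 0), (55, 2), (61, 0), (64, 0), (66, 0), (48, 7), (20, 0), (42, 8), (59, 8), (39, 11)],
    [(24, 0), (38, 0), (55, 2), (24, 0), (50, 3), (65, 3), (67, 6), (49, 7), (24, 0), (43, 8), (60, 8), (45, 11)],
    [(25, 0), (44, 0), (61, 0), (50, 3), (25, 0), (44, 4), (61, 4), (50, 7), (25, 0), (44, 8), (61, 8), (50, 11)],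
    [(23, 5), (49, 0), (64, 0), (65, 3), (44, 4), (23, 5), (37, 5), (51, 7), (23, 5), (45, 8), (62, 8), (54, 11)],
    [(18, 6), (53, 0), (66, 0), (67, 6), (61, 4), (37, 5), (18, 6), (29, 6), (18, 6), (46, 8), (59, 6), (56, 11)],
    [(10, 7), (47, 7), (48, 7), (49, 7), (50, 7), (51, 7), (29, 6), (10, 7), (10, 7), (28, 7), (35, 7), (41, 7)],
    [(4, 8), (13, 0), (20, 0), (24, 0), (25, 0), (23, 5), (18, 6), (10, 7), (4, 8), (9, 8), (16, 8), (14, 11)],
    [(9, 8), (41, 8), (42, 8), (43, 8), (44, 8), (45, 8), (46, 8), (28, 7), (9, 8), (9, 8), (27, 8), (34, 8)],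
    [(16, 8), (58, 0), (59, 8), (60, 8), (61, 8), (62, 8), (59, 6), (35, 7), (16, 8), (27, 8), (16, 8), (33, 10)],
    [(14, 11), (32, 11), (39, 11), (45, 11), (50, 11), (54, 11), (56, 11), (41, 7), (14, 11), (34, 8), (33, 10), (14, 11)]],
   [[(3, 9), (14, 0), (21, 0), (22, 9), (23, 9), (24, 9), (22, 6), (17, 7), (9, 8), (3, 9), (8, 9), (15, 11)],
    [(14, 0), (14, 0), (32, 0), (39, 0), (45, 0), (50, 0), (54, 0), (56, 0), (41, 8), (14, 0), (34, 9), (33, 11)],
    [(21, 0), (32, 0), (21, 0), (57, 2), (62, 0), (65, 0), (67, 0), (63, 7), (42, 8), (21, 0), (35, 9), (40, 11)],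
    [(22, 9), (39, 0), (57, 2), (22, 9), (54, 3), (67, 3), (68, 0), (64, 7), (43, 8), (22, 9), (36, 9), (46, 11)],
    [(23, 9), (45, 0), (62, 0), (54, 3), (23, 9), (49, 4), (64, 4), (65, 7), (44, 8), (23, 9), (37, 9), (51, 11)],
    [(24, 9), (50, 0), (65, 0), (67, 3), (49, 4), (24, 9), (43, 5), (60, 5), (45, 8), (24, 9), (38, 9), (55, 11)],
    [(22, 6), (54, 0), (67, 0), (68, 0), (64, 4), (43, 5), (22, 6), (36, 6), (46, 8), (22, 6), (39, 9), (57, 11)],
    [(17, 7), (56, 0), (63, 7), (64, 7), (65, 7), (60, 5), (36, 6), (17, 7), (28, 7), (17, 7), (40, 9), (58, 11)],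
    [(9, 8), (41, 8), (42, 8), (43, 8), (44, 8), (45, 8), (46, 8), (28, 7), (9, 8), (9, 8), (27, 8), (34, 8)],
    [(3, 9), (14, 0), (21, 0), (22, 9), (23, 9), (24, 9), (22, 6), (17, 7), (9, 8), (3, 9), (8, 9), (15, 11)],
    [(8, 9), (34, 9), (35, 9), (36, 9), (37, 9), (38, 9), (39, 9), (40, 9), (27, 8), (8, 9), (8, 9), (26, 9)],
    [(15, 11), (33, 11), (40, 11), (46, 11), (51, 11), (55, 11), (57, 11), (58, 11), (34, 8), (15, 11), (26, 9), (15, 11)]],
   [[(2, 10), (15, 0), (16, 10), (17, 10), (18, 10), (19, 10), (20, 10), (21, 10), (16, 8), (8, 9), (2, 10), (7, 10)],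
    [(15, 0), (15, 0), (33, 0), (40, 0), (46, 0), (51, 0), (55, 0), (57, 0), (58, 0), (34, 9), (15, 0), (26, 10)],
    [(16, 10), (33, 0), (16, 10), (58, 2), (59, 10), (60, 10), (61, 10), (62, 10), (59, 8), (35, 9), (16, 10), (27, 10)],
    [(17, 10), (40, 0), (58, 2), (17, 10), (56, 3), (63, 10), (64, 10), (65, 10), (60, 8), (36, 9), (17, 10), (28, 10)],
    [(18, 10), (46, 0), (59, 10), (56, 3), (18, 10), (53, 4), (66, 4), (67, 10), (61, 8), (37, 9), (18, 10), (29, 10)],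
    [(19, 10), (51, 0), (60, 10), (63, 10), (53, 4), (19, 10), (48, 5), (63, 5), (62, 8), (38, 9), (19, 10), (30, 10)],
    [(20, 10), (55, 0), (61, 10), (64, 10), (66, 4), (48, 5), (20, 10), (42, 6), (59, 6), (39, 9), (20, 10), (31, 10)],
    [(21, 10), (57, 0), (62, 10), (65, 10), (67, 10), (63, 5), (42, 6), (21, 10), (35, 7), (40, 9), (21, 10), (32, 10)],
    [(16, 8), (58, 0), (59, 8), (60, 8), (61, 8), (62, 8), (59, 6), (35, 7), (16, 8), (27, 8), (16, 8), (33, 10)],
    [(8, 9), (34, 9), (35, 9), (36, 9), (37, 9), (38, 9), (39, 9), (40, 9), (27, 8), (8, 9), (8, 9), (26, 9)],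
    [(2, 10), (15, 0), (16, 10), (17, 10), (18, 10), (19, 10), (20, 10), (21, 10), (16, 8), (8, 9), (2, 10), (7, 10)],
    [(7, 10), (26, 10), (27, 10), (28, 10), (29, 10), (30, 10), (31, 10), (32, 10), (33, 10), (26, 9), (7, 10), (7, 10)]],
   [[(1, 11), (7, 11), (8, 11), (9, 11), (10, 11), (11, 11), (12, 11), (13, 11), (14, 11), (15, 11), (7, 10), (1, 11)],
    [(7, 11), (7, 11), (26, 11), (27, 11), (28, 11), (29, 11), (30, 11), (31, 11), (32, 11), (33, 11), (26, 10), (7, 11)],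
    [(8, 11), (26, 11), (8, 11), (34, 11), (35, 11), (36, 11), (37, 11), (38, 11), (39, 11), (40, 11), (27, 10), (8, 11)],
    [(9, 11), (27, 11), (34, 11), (9, 11), (41, 11), (42, 11), (43, 11), (44, 11), (45, 11), (46, 11), (28, 10), (9, 11)],
    [(10, 11), (28, 11), (35, 11), (41, 11), (10, 11), (47, 11), (48, 11), (49, 11), (50, 11), (51, 11), (29, 10), (10, 11)],
    [(11, 11), (29, 11), (36, 11), (42, 11), (47, 11), (11, 11), (52, 5), (53, 11), (54, 11), (55, 11), (30, 10), (11, 11)],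
    [(12, 11), (30, 11), (37, 11), (43, 11), (48, 11), (52, 5), (12, 11), (47, 6), (56, 11), (57, 11), (31, 10), (12, 11)],
    [(13, 11), (31, 11), (38, 11), (44, 11), (49, 11), (53, 11), (47, 6), (13, 11), (41, 7), (58, 11), (32, 10), (13, 11)],
    [(14, 11), (32, 11), (39, 11), (45, 11), (50, 11), (54, 11), (56, 11), (41, 7), (14, 11), (34, 8), (33, 10), (14, 11)],
    [(15, 11), (33, 11), (40, 11), (46, 11), (51, 11), (55, 11), (57, 11), (58, 11), (34, 8), (15, 11), (26, 9), (15, 11)],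
    [(7, 10), (26, 10), (27, 10), (28, 10), (29, 10), (30, 10), (31, 10), (32, 10), (33, 10), (26, 9), (7, 10), (7, 10)],
    [(1, 11), (7, 11), (8, 11), (9, 11), (10, 11), (11, 11), (12, 11), (13, 11), (14, 11), (15, 11), (7, 10), (1, 11)]]]

/-- the normal form -/
def nf (d e f : Fin 12) : ℕ × ℕ := ((nfT.getD d.val []).getD e.val []).getD f.val (0, 0)

/-- membership -/
def memB (s : Fin 12) (l : List (Fin 12)) : Bool := l.any (fun t => Nat.beq t.val s.val)

lemma memB_iff (s : Fin 12) (l : List (Fin 12)) : memB s l = true ↔ s ∈ l := by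
  unfold memB
  rw [List.any_eq_true]
  constructor
  · rintro ⟨t, ht, h⟩
    have : t = s := Fin.ext (Nat.eq_of_beq_eq_true h)
    exact this ▸ ht
  · intro h
    exact ⟨s, h, Nat.beq_refl _⟩

/-- a residue from a number -/
def toF (n : ℕ) : Fin 12 := ix12.getD n 0

/-- the check of the normal forms -/
def nfC (d : Fin 12) : Bool := ix12.all (fun e => ix12.all (fun f => Nat.blt (nf d e f).1 69 &&
  ix12.all (fun s => memB s [0, d, e, f] ==
    memB (s - toF (nf d e f).2) (confs.getD (nf d e f).1 []))))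

lemma nfC_ok0 : nfC 0 = true := by decide +kernel

lemma nfC_ok1 : nfC 1 = true := by decide +kernel

lemma nfC_ok2 : nfC 2 = true := by decide +kernel

lemma nfC_ok3 : nfC 3 = true := by decide +kernel

lemma nfC_ok4 : nfC 4 = true := by decide +kernel

lemma nfC_ok5 : nfC 5 = true := by decide +kernel

lemma nfC_ok6 : nfC 6 = true := by decide +kernel

lemma nfC_ok7 : nfC 7 = true := by decide +kernel

lemma nfC_ok8 : nfC 8 = true := by decide +kernel

lemma nfC_ok9 : nfC 9 = true := by decide +kernel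

lemma nfC_ok10 : nfC 10 = true := by decide +kernel

lemma nfC_ok11 : nfC 11 = true := by decide +kernel

lemma nfC_ok (d : Fin 12) : nfC d = true := by
  fin_cases d
  · exact nfC_ok0
  · exact nfC_ok1
  · exact nfC_ok2
  · exact nfC_ok3
  · exact nfC_ok4
  · exact nfC_ok5
  · exact nfC_ok6
  · exact nfC_ok7
  · exact nfC_ok8
  · exact nfC_ok9
  · exact nfC_ok10
  · exact nfC_ok11

lemma mem_ix12 (s : Fin 12) : s ∈ ix12 := by fin_cases s <;> decide

lemma confs_norm (a b c d : Fin 12) : ∃ i : Fin 69, ∃ σ : Fin 12, ∀ s : Fin 12,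
    (s = a ∨ s = b ∨ s = c ∨ s = d) ↔ s - σ ∈ confs.getD i.val [] := by
  have h1 := nfC_ok (b - a)
  unfold nfC at h1
  rw [List.all_eq_true] at h1
  have h2' := h1 (c - a) (mem_ix12 _)
  rw [List.all_eq_true] at h2'
  have h2 := h2' (d - a) (mem_ix12 _)
  rw [Bool.and_eq_true, List.all_eq_true] at h2
  refine ⟨⟨(nf (b - a) (c - a) (d - a)).1, by
    have := h2.1
    rw [Nat.blt_eq] at this
    exact this⟩, a + toF (nf (b - a) (c - a) (d - a)).2, fun s => ?_⟩
  have h3 := h2.2 (s - a) (mem_ix12 _)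
  rw [beq_iff_eq] at h3
  show _ ↔ s - (a + toF (nf (b - a) (c - a) (d - a)).2) ∈
    confs.getD (nf (b - a) (c - a) (d - a)).1 []
  rw [← memB_iff, ← sub_sub, ← h3, memB_iff]
  simp only [List.mem_cons, List.not_mem_nil, or_false, sub_eq_zero, sub_left_inj]

lemma confs_nodup : ∀ i : Fin 69, (confs.getD i.val []).Nodup ∧ (0 : Fin 12) ∈ confs.getD i.val [] := by
  decide +kernel

end Pool.Agent.KY
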