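import Pool.Agent.Lib_helper72.KY.V3

/-!
# Constants which are products of powers of four primes
-/

set_option autoImplicit false
set_option linter.unusedSectionVars false
set_option linter.unusedSimpArgs false
set_option linter.unusedVariables false

namespace Pool.Agent.KY

open KC72

section

variable {k : Type*} [Field k]

lemma four_p [CharZero k] {p q : ℕ} (hp : p.Prime) (h5 : 5 ≤ p) (hq' : q.Prime) (hpq : p < q)
    {P Q : k} (hP : P = (p : k)) (hQ : Q = (q : k))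
    {a b c d : ℤ} (h : (2 : k) ^ a * 3 ^ b * P ^ c * Q ^ d = 1) :
    a = 0 ∧ b = 0 ∧ c = 0 ∧ d = 0 := by
  have hq : (2 : ℚ) ^ a * 3 ^ b * (p : ℚ) ^ c * (q : ℚ) ^ d = 1 := by
    have h2 : ((((2 : ℚ) ^ a * 3 ^ b * (p : ℚ) ^ c * (q : ℚ) ^ d : ℚ)) : k) = ((1 : ℚ) : k) := by
      push_cast
      rw [← hP, ← hQ]
      exact h
    exact_mod_cast h2
  haveI : Fact (Nat.Prime 2) := ⟨Nat.prime_two⟩
  haveI : Fact (Nat.Prime 3) := ⟨Nat.prime_three⟩
  haveI : Fact (Nat.Prime p) := ⟨hp⟩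
  haveI : Fact (Nat.Prime q) := ⟨hq'⟩
  have v2 := congrArg (padicValRat 2) hq
  have v3 := congrArg (padicValRat 3) hq
  have vp := congrArg (padicValRat p) hq
  have vq := congrArg (padicValRat q) hq
  have p0 : (p : ℚ) ≠ 0 := Nat.cast_ne_zero.mpr hp.ne_zero
  have q0 : (q : ℚ) ≠ 0 := Nat.cast_ne_zero.mpr hq'.ne_zero
  have a2 : (2 : ℚ) ^ a ≠ 0 := zpow_ne_zero _ two_ne_zero
  have a3 : (3 : ℚ) ^ b ≠ 0 := zpow_ne_zero _ three_ne_zero
  have ap : (p : ℚ) ^ c ≠ 0 := zpow_ne_zero _ p0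
  have aq : (q : ℚ) ^ d ≠ 0 := zpow_ne_zero _ q0
  have c22 : padicValRat 2 (2 : ℚ) = 1 := by
    have := padicValRat.self (p := 2) (by norm_num)
    exact_mod_cast this
  have c33 : padicValRat 3 (3 : ℚ) = 1 := by
    have := padicValRat.self (p := 3) (by norm_num)
    exact_mod_cast this
  have cpp : padicValRat p (p : ℚ) = 1 := padicValRat.self hp.one_lt
  have cqq : padicValRat q (q : ℚ) = 1 := padicValRat.self hq'.one_lt
  have c23 : padicValRat 2 (3 : ℚ) = 0 := by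
    have := pv_ne Nat.prime_two Nat.prime_three (by norm_num)
    exact_mod_cast this
  have c32 : padicValRat 3 (2 : ℚ) = 0 := by
    have := pv_ne Nat.prime_three Nat.prime_two (by norm_num)
    exact_mod_cast this
  have c2p : padicValRat 2 (p : ℚ) = 0 := pv_ne Nat.prime_two hp (by omega)
  have c3p : padicValRat 3 (p : ℚ) = 0 := pv_ne Nat.prime_three hp (by omega)
  have cp2 : padicValRat p (2 : ℚ) = 0 := by
    have := pv_ne hp Nat.prime_two (by omega)
    exact_mod_cast this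
  have cp3 : padicValRat p (3 : ℚ) = 0 := by
    have := pv_ne hp Nat.prime_three (by omega)
    exact_mod_cast this
  have c2q : padicValRat 2 (q : ℚ) = 0 := pv_ne Nat.prime_two hq' (by omega)
  have c3q : padicValRat 3 (q : ℚ) = 0 := pv_ne Nat.prime_three hq' (by omega)
  have cpq : padicValRat p (q : ℚ) = 0 := pv_ne hp hq' (by omega)
  have cqp : padicValRat q (p : ℚ) = 0 := pv_ne hq' hp (by omega)
  have cq2 : padicValRat q (2 : ℚ) = 0 := by
    have := pv_ne hq' Nat.prime_two (by omega)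
    exact_mod_cast this
  have cq3 : padicValRat q (3 : ℚ) = 0 := by
    have := pv_ne hq' Nat.prime_three (by omega)
    exact_mod_cast this
  rw [padicValRat.mul (mul_ne_zero (mul_ne_zero a2 a3) ap) aq, padicValRat.mul
    (mul_ne_zero a2 a3) ap, padicValRat.mul a2 a3, padicValRat.zpow,
    padicValRat.zpow, padicValRat.zpow, padicValRat.zpow, padicValRat.one] at v2 v3 vp vq
  rw [c22, c23, c2p, c2q] at v2
  rw [c32, c33, c3p, c3q] at v3
  rw [cp2, cp3, cpp, cpq] at vp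
  rw [cq2, cq3, cqp, cqq] at vq
  refine ⟨?_, ?_, ?_, ?_⟩ <;> linarith

/-- a product of signed powers of four primes -/
lemma prod_sq4 [CharZero k] {P Q : k} (hP : P ≠ 0) (hQ : Q ≠ 0) (sg : Fin 12 → Bool)
    (al be ga de e : Fin 12 → ℤ) :
    (∏ i, ((bif sg i then -1 else 1) * 2 ^ al i * 3 ^ be i * P ^ ga i * Q ^ de i : k) ^ e i) ^ 2 =
      2 ^ (2 * ∑ i, al i * e i) * 3 ^ (2 * ∑ i, be i * e i) * P ^ (2 * ∑ i, ga i * e i) *
        Q ^ (2 * ∑ i, de i * e i) := by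
  have h : ∀ s : Finset (Fin 12),
      (∏ i ∈ s, ((bif sg i then -1 else 1) * 2 ^ al i * 3 ^ be i * P ^ ga i * Q ^ de i : k) ^ e i)
        ^ 2 =
      2 ^ (2 * ∑ i ∈ s, al i * e i) * 3 ^ (2 * ∑ i ∈ s, be i * e i) *
        P ^ (2 * ∑ i ∈ s, ga i * e i) * Q ^ (2 * ∑ i ∈ s, de i * e i) := by
    intro s
    classical
    induction s using Finset.induction_on with
    | empty => simp
    | insert i s hi ih =>
      rw [Finset.prod_insert hi, Finset.sum_insert hi, Finset.sum_insert hi,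
        Finset.sum_insert hi, Finset.sum_insert hi, mul_pow, ih, mul_add, mul_add,
        mul_add, mul_add, zpow_add₀ two_ne_zero, zpow_add₀ three_ne_zero, zpow_add₀ hP,
        zpow_add₀ hQ]
      have h1 : (((bif sg i then -1 else 1) * 2 ^ al i * 3 ^ be i * P ^ ga i * Q ^ de i : k)
            ^ e i) ^ 2 =
          2 ^ (2 * (al i * e i)) * 3 ^ (2 * (be i * e i)) * P ^ (2 * (ga i * e i)) *
            Q ^ (2 * (de i * e i)) := by
        have s1 : ((bif sg i then -1 else 1 : k) ^ e i) ^ 2 = 1 := by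
          rw [← zpow_natCast, ← zpow_mul, mul_comm, zpow_mul, zpow_natCast]
          cases sg i <;> simp
        rw [mul_zpow, mul_zpow, mul_zpow, mul_zpow, mul_pow, mul_pow, mul_pow, mul_pow, s1,
          one_mul, ← zpow_mul, ← zpow_mul, ← zpow_mul, ← zpow_mul, ← zpow_natCast,
          ← zpow_natCast, ← zpow_natCast, ← zpow_natCast, ← zpow_mul, ← zpow_mul, ← zpow_mul,
          ← zpow_mul, mul_comm _ ((2 : ℕ) : ℤ), mul_comm _ ((2 : ℕ) : ℤ),
          mul_comm _ ((2 : ℕ) : ℤ), mul_comm _ ((2 : ℕ) : ℤ)]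
        norm_num
      rw [h1]
      ring
  exact h _

/-- equal values give equal exponents -/
lemma exp_eq4 [CharZero k] {p q : ℕ} (hp : p.Prime) (h5 : 5 ≤ p) (hq : q.Prime) (hpq : p < q)
    {P Q : k} (hP : P = (p : k)) (hQ : Q = (q : k))
    (sg : Fin 12 → Bool) (al be ga de : Fin 12 → ℤ) {c v : k} (hc : c ≠ 0)
    {e : Fin 12 → ℤ} {s s' : Fin 12}
    (h : c * ∏ i, ((bif sg i then -1 else 1) * 2 ^ al i * 3 ^ be i * P ^ ga i * Q ^ de i : k)
      ^ e (i + s) = v)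
    (h' : c * ∏ i, ((bif sg i then -1 else 1) * 2 ^ al i * 3 ^ be i * P ^ ga i * Q ^ de i : k)
      ^ e (i + s') = v) :
    ∑ i, al i * e (i + s) = ∑ i, al i * e (i + s') ∧
    ∑ i, be i * e (i + s) = ∑ i, be i * e (i + s') ∧
    ∑ i, ga i * e (i + s) = ∑ i, ga i * e (i + s') ∧
    ∑ i, de i * e (i + s) = ∑ i, de i * e (i + s') := by
  have p0 : P ≠ 0 := by rw [hP]; exact Nat.cast_ne_zero.mpr hp.ne_zero
  have q0 : Q ≠ 0 := by rw [hQ]; exact Nat.cast_ne_zero.mpr hq.ne_zero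
  have h2 := mul_left_cancel₀ hc (h.trans h'.symm)
  have h3 := congrArg (fun z => z ^ 2) h2
  beta_reduce at h3
  rw [prod_sq4 p0 q0 sg al be ga de (fun i => e (i + s)),
    prod_sq4 p0 q0 sg al be ga de (fun i => e (i + s'))] at h3
  have n2 : ∀ a : ℤ, (2 : k) ^ a ≠ 0 := fun a => zpow_ne_zero _ two_ne_zero
  have n3 : ∀ a : ℤ, (3 : k) ^ a ≠ 0 := fun a => zpow_ne_zero _ three_ne_zero
  have np : ∀ a : ℤ, P ^ a ≠ 0 := fun a => zpow_ne_zero _ p0
  have nq : ∀ a : ℤ, Q ^ a ≠ 0 := fun a => zpow_ne_zero _ q0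
  have h4 : (2 : k) ^ (2 * ∑ i, al i * e (i + s) - 2 * ∑ i, al i * e (i + s')) *
      3 ^ (2 * ∑ i, be i * e (i + s) - 2 * ∑ i, be i * e (i + s')) *
      P ^ (2 * ∑ i, ga i * e (i + s) - 2 * ∑ i, ga i * e (i + s')) *
      Q ^ (2 * ∑ i, de i * e (i + s) - 2 * ∑ i, de i * e (i + s')) = 1 := by
    rw [zpow_sub₀ two_ne_zero, zpow_sub₀ three_ne_zero, zpow_sub₀ p0, zpow_sub₀ q0,
      div_mul_div_comm, div_mul_div_comm, div_mul_div_comm, h3,
      div_self (mul_ne_zero (mul_ne_zero (mul_ne_zero (n2 _) (n3 _)) (np _)) (nq _))]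
  obtain ⟨a1, a2, a3, a4⟩ := four_p hp h5 hq hpq hP hQ h4
  refine ⟨?_, ?_, ?_, ?_⟩ <;> omega

end

end Pool.Agent.KY
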